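import Mathlib

/-!
# Cyclic arrangement: coalitions with given profiles and balanced multiplicities
-/

open Finset

namespace Pool.Agent.Helper23.Trade

section

lemma injOn_mod (n a x : ℕ) (hx : x ≤ n) :
    Set.InjOn (fun k => k % n) (Ico a (a + x) : Finset ℕ) := by
  have h1 : #((Ico a (a + n)).image (fun k => k % n)) = #(Ico a (a + n)) := by
    rw [Nat.image_Ico_mod, card_range, Nat.card_Ico]; omega
  have h2 := card_image_iff.mp h1
  apply h2.mono
  intro k hk
  rw [mem_coe, mem_Ico] at *
  omega

lemma cyc_card (n a x : ℕ) (hx : x ≤ n) :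
    #((Ico a (a + x)).image (fun k => k % n)) = x := by
  rw [card_image_of_injOn (injOn_mod n a x hx), Nat.card_Ico]
  omega

lemma cyc_count (n a x r : ℕ) (hx : x ≤ n) :
    (if r ∈ (Ico a (a + x)).image (fun k => k % n) then 1 else 0) =
      #((Ico a (a + x)).filter (fun k => k % n = r)) := by
  split_ifs with h
  · obtain ⟨k, hk, hkr⟩ := mem_image.mp h
    symm
    rw [card_eq_one]
    refine ⟨k, ?_⟩
    ext k'
    rw [mem_filter, mem_singleton]
    constructor
    · rintro ⟨h1, h2⟩
      exact injOn_mod n a x hx (mem_coe.mpr h1) (mem_coe.mpr hk) (by simp only; rw [h2, hkr])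
    · rintro rfl
      exact ⟨hk, hkr⟩
  · symm
    rw [card_eq_zero, filter_eq_empty_iff]
    intro k hk hkr
    exact h (mem_image.mpr ⟨k, hk, hkr⟩)

lemma cyc_total (n : ℕ) (x : ℕ → ℕ) (hx : ∀ i, x i ≤ n) (r : ℕ) (j : ℕ) :
    ∑ i ∈ range j, (if r ∈ (Ico (∑ l ∈ range i, x l) (∑ l ∈ range i, x l + x i)).image
      (fun k => k % n) then 1 else 0) =
      #((range (∑ l ∈ range j, x l)).filter (fun k => k % n = r)) := by
  induction j with
  | zero => simp
  | succ j ih =>
    rw [sum_range_succ, ih, cyc_count n _ _ _ (hx j), sum_range_succ]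
    generalize ∑ l ∈ range j, x l = t
    have e : range (t + x j) = range t ∪ Ico t (t + x j) := by
      ext k
      simp only [mem_range, mem_union, mem_Ico]
      omega
    rw [e, filter_union, card_union_of_disjoint]
    apply disjoint_filter_filter
    rw [disjoint_left]
    intro k hk hk'
    rw [mem_range] at hk
    rw [mem_Ico] at hk'
    omega

variable {N : Type*} [Fintype N] [DecidableEq N]

/-- The profile of a coalition. -/
def prof (τ : N → Fin 3) (S : Finset N) : Fin 3 → ℕ := fun c => #(S.filter (fun p => τ p = c))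

omit [DecidableEq N] in
lemma exists_idx (τ : N → Fin 3) : ∃ idx : N → ℕ, (∀ p, idx p < prof τ univ (τ p)) ∧
    (∀ p q, τ p = τ q → idx p = idx q → p = q) ∧
    (∀ c b, b < prof τ univ c → ∃ p, τ p = c ∧ idx p = b) := by
  let C : Fin 3 → Finset N := fun c => univ.filter (fun p => τ p = c)
  have hC : ∀ p, p ∈ C (τ p) := fun p => by simp [C]
  let idx : N → ℕ := fun p => ((C (τ p)).equivFin ⟨p, hC p⟩).val
  have hidx : ∀ c p (hp : p ∈ C c), idx p = ((C c).equivFin ⟨p, hp⟩).val := by
    intro c p hp
    have : τ p = c := by simpa [C] using hp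
    subst this
    rfl
  refine ⟨idx, ?_, ?_, ?_⟩
  · intro p
    exact ((C (τ p)).equivFin ⟨p, hC p⟩).isLt
  · intro p q hpq h
    have hp : p ∈ C (τ q) := by rw [← hpq]; exact hC p
    rw [hidx (τ q) p hp, hidx (τ q) q (hC q)] at h
    have := (C (τ q)).equivFin.injective (Fin.val_injective h)
    exact congrArg Subtype.val this
  · intro c b hb
    obtain ⟨⟨p, hp⟩, hpe⟩ := (C c).equivFin.surjective ⟨b, hb⟩
    refine ⟨p, by simpa [C] using hp, ?_⟩
    rw [hidx c p hp, hpe]

/-- Coalitions with given profiles whose multiplicities only depend on the sum of profiles. -/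
lemma arrange (τ : N → Fin 3) : ∃ F : N → ℕ → ℕ,
    ∀ x : ℕ → Fin 3 → ℕ, (∀ i, x i ≤ prof τ univ) →
      ∃ A : ℕ → Finset N, (∀ i, prof τ (A i) = x i) ∧
        ∀ p j, (∑ i ∈ range j, if p ∈ A i then 1 else 0) = F p (∑ i ∈ range j, x i (τ p)) := by
  obtain ⟨idx, hlt, hinj, hsurj⟩ := exists_idx τ
  refine ⟨fun p t => #((range t).filter (fun k => k % prof τ univ (τ p) = idx p)), ?_⟩
  intro x hx
  let B : Fin 3 → ℕ → Finset ℕ := fun c i =>
    (Ico (∑ l ∈ range i, x l c) (∑ l ∈ range i, x l c + x i c)).image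
      (fun k => k % prof τ univ c)
  refine ⟨fun i => univ.filter (fun p => idx p ∈ B (τ p) i), ?_, ?_⟩
  · intro i
    funext c
    have hBc : #(B c i) = x i c := cyc_card _ _ _ (hx i c)
    rw [← hBc]
    change #((univ.filter (fun p => idx p ∈ B (τ p) i)).filter (fun p => τ p = c)) = _
    apply card_bij (fun p _ => idx p)
    · intro p hp
      rw [mem_filter, mem_filter] at hp
      rw [← hp.2]
      exact hp.1.2
    · intro p hp q hq h
      rw [mem_filter] at hp hq
      exact hinj p q (by rw [hp.2, hq.2]) h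
    · intro b hb
      have hbn : b < prof τ univ c := by
        obtain ⟨k, hk, rfl⟩ := mem_image.mp hb
        apply Nat.mod_lt
        rw [mem_Ico] at hk
        have : x i c ≤ prof τ univ c := hx i c
        omega
      obtain ⟨p, hp, hpb⟩ := hsurj c b hbn
      refine ⟨p, ?_, hpb⟩
      rw [mem_filter, mem_filter]
      refine ⟨⟨mem_univ _, ?_⟩, hp⟩
      rw [hp, hpb]
      exact hb
  · intro p j
    have := cyc_total (prof τ univ (τ p)) (fun i => x i (τ p)) (fun i => hx i (τ p)) (idx p) j
    simp only [mem_filter, mem_univ, true_and, B]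
    exact this

end

end Pool.Agent.Helper23.Trade
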