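import Mathlib

/-!
# Simple games: definitions
-/

namespace Pool.Agent.Helper23.Trade

variable {N : Type*}

/-- `W` is the family of winning coalitions of a simple game with voter set `N`: it is upward
closed, the empty coalition is losing and the grand coalition is winning. -/
structure IsSimpleGame [Fintype N] (W : Set (Finset N)) : Prop where
  upward : ∀ S T : Finset N, S ∈ W → S ⊆ T → T ∈ W
  empty_losing : ∅ ∉ W
  univ_winning : Finset.univ ∈ W

/-- The game is weighted: nonnegative real weights and a real quota describe `W`. -/
def Weighted (W : Set (Finset N)) : Prop :=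
  ∃ (w : N → ℝ) (q : ℝ), (∀ p, 0 ≤ w p) ∧ ∀ S : Finset N, S ∈ W ↔ q ≤ ∑ p ∈ S, w p

variable [DecidableEq N]

/-- `i ⪰ j` in the desirability relation of `W`. -/
def Desirable (W : Set (Finset N)) (i j : N) : Prop :=
  ∀ S : Finset N, i ∉ S → j ∉ S → insert j S ∈ W → insert i S ∈ W

/-- `i` and `j` are equivalent (each is at least as desirable as the other). -/
def Equivalent (W : Set (Finset N)) (i j : N) : Prop :=
  Desirable W i j ∧ Desirable W j i

lemma Desirable.trans {W : Set (Finset N)} {i j k : N} (hij : Desirable W i j)
    (hjk : Desirable W j k) : Desirable W i k := by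
  intro S hi hk hS
  by_cases h1 : i = j
  · subst h1; exact hjk S hi hk hS
  by_cases h2 : j = k
  · subst h2; exact hij S hi hk hS
  by_cases h3 : i = k
  · subst h3; exact hS
  by_cases hj : j ∈ S
  · have e1 : insert j (insert k (S.erase j)) = insert k S := by
      rw [Finset.insert_comm, Finset.insert_erase hj]
    have e2 : insert j (insert i (S.erase j)) = insert i S := by
      rw [Finset.insert_comm, Finset.insert_erase hj]
    have s1 := hij (insert k (S.erase j)) (by simp [h3, hi]) (by simp [h2]) (by rw [e1]; exact hS)
    rw [Finset.insert_comm] at s1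
    have s2 := hjk (insert i (S.erase j)) (by simp [Ne.symm h1]) (by simp [Ne.symm h3, hk]) s1
    rw [e2] at s2
    exact s2
  · exact hij S hi hj (hjk S hj hk hS)

/-- Equivalence of voters, as an equivalence relation; its classes are the types. -/
def typeSetoid (W : Set (Finset N)) : Setoid N where
  r := Equivalent W
  iseqv :=
    { refl := fun _ => ⟨fun _ _ _ h => h, fun _ _ _ h => h⟩
      symm := fun h => ⟨h.2, h.1⟩
      trans := fun h1 h2 => ⟨h1.1.trans h2.1, h2.2.trans h1.2⟩ }

/-- The number of types of voters. -/
noncomputable def numTypes (W : Set (Finset N)) : ℕ := Nat.card (Quotient (typeSetoid W))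

/-- The sequences `X` and `Y` of coalitions form a trade: every voter lies in equally many of
the `X i` as of the `Y i`. -/
def IsTrade {j : ℕ} (X Y : Fin j → Finset N) : Prop :=
  ∀ p : N, (Finset.univ.filter fun i => p ∈ X i).card = (Finset.univ.filter fun i => p ∈ Y i).card

/-- `m`-trade robustness: in every trade of length `1 ≤ j ≤ m` in which all `X i` are winning,
some `Y i` is winning. -/
def TradeRobust (W : Set (Finset N)) (m : ℕ) : Prop :=
  ∀ j : ℕ, 1 ≤ j → j ≤ m → ∀ X Y : Fin j → Finset N, IsTrade X Y → (∀ i, X i ∈ W) → ∃ i, Y i ∈ W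

end Pool.Agent.Helper23.Trade
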