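import Pool.Agent.Helper23.Trade.Move

/-!
# The local lemma: four candidates against three coordinates
-/

open Finset

namespace Pool.Agent.Helper23.Trade

section num

/-- not in `[0, n]`. -/
def Bad (v n : ℝ) : Prop := v < 0 ∨ n < v

lemma claimB1 {pa pb pc pd wa wb wc wd : ℝ} (ha : 0 < pa) (hb : 0 < pb) (hc : 0 < pc)
    (hd : 0 < pd) (hbc : 1 ≤ pb + pc) (wa0 : 0 ≤ wa) (wb0 : 0 ≤ wb) (wc0 : 0 ≤ wc) (wd0 : 0 ≤ wd)
    (h1 : pa * wa + pb * wb + pc * wc + pd * wd < wb)
    (h2 : pa * wa + pb * wb + pc * wc + pd * wd < wc) : False := by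
  set P := pa * wa + pb * wb + pc * wc + pd * wd with hP
  have hP0 : 0 ≤ P := by positivity
  have e1 : 0 < pb * (wb - P) := mul_pos hb (by linarith)
  have e2 : 0 < pc * (wc - P) := mul_pos hc (by linarith)
  have e3 : 0 ≤ (pb + pc - 1) * P := mul_nonneg (by linarith) hP0
  have e4 : 0 ≤ pa * wa := by positivity
  have e5 : 0 ≤ pd * wd := by positivity
  nlinarith

lemma claimB {pa pb pc pd wa wb wc wd n : ℝ} (ha : 0 < pa) (hb : 0 < pb) (hc : 0 < pc)
    (hd : 0 < pd) (hs : pa + pb + pc + pd = 2) (hbc : 1 ≤ pb + pc)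
    (wa0 : 0 ≤ wa ∧ wa ≤ n) (wb0 : 0 ≤ wb ∧ wb ≤ n) (wc0 : 0 ≤ wc ∧ wc ≤ n)
    (wd0 : 0 ≤ wd ∧ wd ≤ n)
    (h1 : Bad (pa * wa + pb * wb + pc * wc + pd * wd - wb) n)
    (h2 : Bad (pa * wa + pb * wb + pc * wc + pd * wd - wc) n) : False := by
  rcases h1 with h1 | h1 <;> rcases h2 with h2 | h2
  · exact claimB1 ha hb hc hd hbc wa0.1 wb0.1 wc0.1 wd0.1 (by linarith) (by linarith)
  · linarith [wb0.2, wc0.1]
  · linarith [wc0.2, wb0.1]
  · have e : pa * (n - wa) + pb * (n - wb) + pc * (n - wc) + pd * (n - wd)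
        = 2 * n - (pa * wa + pb * wb + pc * wc + pd * wd) := by
      have : pa * (n - wa) + pb * (n - wb) + pc * (n - wc) + pd * (n - wd)
        = (pa + pb + pc + pd) * n - (pa * wa + pb * wb + pc * wc + pd * wd) := by ring
      rw [this, hs]
    exact claimB1 (wa := n - wa) (wb := n - wb) (wc := n - wc) (wd := n - wd) ha hb hc hd hbc
      (by linarith [wa0.2]) (by linarith [wb0.2]) (by linarith [wc0.2]) (by linarith [wd0.2])
      (by linarith) (by linarith)

lemma claimA3 {pa pb pc pd wa wb wc wd n : ℝ} (ha : 0 < pa) (ha1 : pa < 1)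
    (hb : pa + pb ≤ 1) (hc : pa + pc ≤ 1)
    (hd : pa + pd ≤ 1) (wa1 : wa ≤ n) (wb0 : 0 ≤ wb) (wc0 : 0 ≤ wc) (wd0 : 0 ≤ wd)
    (h1 : (1 - pa) * wa + (1 - pb) * wb + (1 - pc) * wc + (1 - pd) * wd < wa)
    (h2 : n < pa * wa + pb * wb + pc * wc + pd * wd - wb) : False := by
  have e1 : 0 ≤ (1 - pb - pa) * wb := mul_nonneg (by linarith) wb0
  have e2 : 0 ≤ (1 - pc - pa) * wc := mul_nonneg (by linarith) wc0
  have e3 : 0 ≤ (1 - pd - pa) * wd := mul_nonneg (by linarith) wd0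
  -- pa * wa > pa * (wb + wc + wd)
  have e4 : pa * (wb + wc + wd) < pa * wa := by nlinarith
  have e5 : wb + wc + wd < wa := lt_of_mul_lt_mul_left e4 ha.le
  -- n < pa wa + (1 - pa) (wc + wd) ≤ wa
  have e6 : 0 < (1 - pa) * (wa - (wb + wc + wd)) := mul_pos (by linarith) (by linarith)
  have e7 : 0 ≤ (1 - pa) * wb := mul_nonneg (by linarith) wb0
  nlinarith

lemma claimA {pa pb pc pd wa wb wc wd n : ℝ} (ha : 0 < pa) (ha1 : pa < 1)
    (hs : pa + pb + pc + pd = 2) (hb : pa + pb ≤ 1) (hc : pa + pc ≤ 1)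
    (hd : pa + pd ≤ 1) (wa0 : 0 ≤ wa ∧ wa ≤ n) (wb0 : 0 ≤ wb ∧ wb ≤ n) (wc0 : 0 ≤ wc ∧ wc ≤ n)
    (wd0 : 0 ≤ wd ∧ wd ≤ n)
    (h1 : Bad ((1 - pa) * wa + (1 - pb) * wb + (1 - pc) * wc + (1 - pd) * wd - wa) n)
    (h2 : Bad (pa * wa + pb * wb + pc * wc + pd * wd - wb) n) : False := by
  have hPQ : ((1 - pa) * wa + (1 - pb) * wb + (1 - pc) * wc + (1 - pd) * wd)
      + (pa * wa + pb * wb + pc * wc + pd * wd) = wa + wb + wc + wd := by ring
  rcases h1 with h1 | h1 <;> rcases h2 with h2 | h2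
  · linarith [wc0.1, wd0.1]
  · exact claimA3 ha ha1 hb hc hd wa0.2 wb0.1 wc0.1 wd0.1 (by linarith) h2
  · have e : pa * (n - wa) + pb * (n - wb) + pc * (n - wc) + pd * (n - wd)
        = 2 * n - (pa * wa + pb * wb + pc * wc + pd * wd) := by
      have : pa * (n - wa) + pb * (n - wb) + pc * (n - wc) + pd * (n - wd)
        = (pa + pb + pc + pd) * n - (pa * wa + pb * wb + pc * wc + pd * wd) := by ring
      rw [this, hs]
    have e' : (1 - pa) * (n - wa) + (1 - pb) * (n - wb) + (1 - pc) * (n - wc)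
        + (1 - pd) * (n - wd)
        = 2 * n - ((1 - pa) * wa + (1 - pb) * wb + (1 - pc) * wc + (1 - pd) * wd) := by
      have : (1 - pa) * (n - wa) + (1 - pb) * (n - wb) + (1 - pc) * (n - wc)
        + (1 - pd) * (n - wd)
        = (4 - (pa + pb + pc + pd)) * n
          - ((1 - pa) * wa + (1 - pb) * wb + (1 - pc) * wc + (1 - pd) * wd) := by ring
      rw [this, hs]; ring
    exact claimA3 (wa := n - wa) (wb := n - wb) (wc := n - wc) (wd := n - wd) (n := n) ha ha1 hb hc hd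
      (by linarith [wa0.1]) (by linarith [wb0.2]) (by linarith [wc0.2]) (by linarith [wd0.2])
      (by linarith) (by linarith)
  · linarith [wc0.2, wd0.2]

lemma pigeon (ka kb kc kd : Fin 3) :
    ka = kb ∨ ka = kc ∨ ka = kd ∨ kb = kc ∨ kb = kd ∨ kc = kd := by
  revert ka kb kc kd; decide

/-- Four candidates, three coordinates. -/
lemma four_cand {pa pb pc pd : ℝ} {wa wb wc wd n : Fin 3 → ℝ} (ha : 0 < pa) (ha1 : pa < 1)
    (hb0 : 0 < pb) (hc0 : 0 < pc) (hd0 : 0 < pd)
    (hs : pa + pb + pc + pd = 2) (hb : pa + pb ≤ 1) (hc : pa + pc ≤ 1)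
    (hd : pa + pd ≤ 1) (wa0 : ∀ k, 0 ≤ wa k ∧ wa k ≤ n k) (wb0 : ∀ k, 0 ≤ wb k ∧ wb k ≤ n k)
    (wc0 : ∀ k, 0 ≤ wc k ∧ wc k ≤ n k) (wd0 : ∀ k, 0 ≤ wd k ∧ wd k ≤ n k)
    (h1 : ∃ k, Bad ((1 - pa) * wa k + (1 - pb) * wb k + (1 - pc) * wc k + (1 - pd) * wd k - wa k) (n k))
    (h2 : ∃ k, Bad (pa * wa k + pb * wb k + pc * wc k + pd * wd k - wb k) (n k))
    (h3 : ∃ k, Bad (pa * wa k + pb * wb k + pc * wc k + pd * wd k - wc k) (n k))
    (h4 : ∃ k, Bad (pa * wa k + pb * wb k + pc * wc k + pd * wd k - wd k) (n k)) : False := by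
  obtain ⟨ka, h1⟩ := h1
  obtain ⟨kb, h2⟩ := h2
  obtain ⟨kc, h3⟩ := h3
  obtain ⟨kd, h4⟩ := h4
  rcases pigeon ka kb kc kd with h | h | h | h | h | h
  · subst h
    exact claimA ha ha1 hs hb hc hd (wa0 _) (wb0 _) (wc0 _) (wd0 _) h1 h2
  · subst h
    refine claimA (pa := pa) (pb := pc) (pc := pb) (pd := pd) (wa := wa ka) (wb := wc ka)
      (wc := wb ka) (wd := wd ka) (n := n ka) ha ha1 (by linarith) hc hb hd (wa0 _) (wc0 _) (wb0 _)
      (wd0 _) ?_ ?_
    · convert h1 using 1; ring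
    · convert h3 using 1; ring
  · subst h
    refine claimA (pa := pa) (pb := pd) (pc := pc) (pd := pb) (wa := wa ka) (wb := wd ka)
      (wc := wc ka) (wd := wb ka) (n := n ka) ha ha1 (by linarith) hd hc hb (wa0 _) (wd0 _) (wc0 _)
      (wb0 _) ?_ ?_
    · convert h1 using 1; ring
    · convert h4 using 1; ring
  · subst h
    exact claimB ha hb0 hc0 hd0 hs (by linarith) (wa0 _) (wb0 _) (wc0 _) (wd0 _) h2 h3
  · subst h
    refine claimB (pa := pa) (pb := pb) (pc := pd) (pd := pc) (wa := wa kb) (wb := wb kb)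
      (wc := wd kb) (wd := wc kb) (n := n kb) ha hb0 hd0 hc0 (by linarith) (by linarith) (wa0 _)
      (wb0 _) (wd0 _) (wc0 _) ?_ ?_
    · convert h2 using 1; ring
    · convert h4 using 1; ring
  · subst h
    refine claimB (pa := pa) (pb := pc) (pc := pd) (pd := pb) (wa := wa kc) (wb := wc kc)
      (wc := wd kc) (wd := wb kc) (n := n kc) ha hc0 hd0 hb0 (by linarith) (by linarith) (wa0 _)
      (wc0 _) (wd0 _) (wb0 _) ?_ ?_
    · convert h3 using 1; ring
    · convert h4 using 1; ring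

end num

section
set_option linter.unusedSectionVars false
open Classical
variable {E : Type*} [Fintype E]

/-- The outcome of the rounding. -/
def Good (m : ℕ) (w : E → Fin 3 → ℝ) (n S : Fin 3 → ℝ) (p : E → ℝ) (V : Finset E) : Prop :=
  V.card + 1 = m ∧ (∀ c, 0 ≤ S c - ∑ e ∈ V, w e c ∧ S c - ∑ e ∈ V, w e c ≤ n c) ∧
    ((On p ⊆ V ∧ (m : ℝ) - 2 < ∑ e ∈ V, p e) ∨ (Ze p ⊆ V ∧ ∑ e ∈ V, p e < 1))

lemma not_bad {v n : ℝ} (h : ¬ Bad v n) : 0 ≤ v ∧ v ≤ n := by
  unfold Bad at h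
  push Not at h
  exact h

lemma round_case1 (m : ℕ) (hE : Fintype.card E = 2 * m) (w : E → Fin 3 → ℝ) (n S : Fin 3 → ℝ)
    (hw : ∀ e c, 0 ≤ w e c ∧ w e c ≤ n c) (htot : ∀ c, ∑ e, w e c = 2 * S c) (p : E → ℝ)
    (hp : ∀ e, 0 ≤ p e ∧ p e ≤ 1) (tot : ∑ e, p e = m) (wt : ∀ c, ∑ e, p e * w e c = S c)
    (hF : (Fr p).card = 4) (hO : (On p).card + 2 = m) (a : E) (ha : a ∈ Fr p)
    (hae : ∀ e ∈ Fr p, e ≠ a → p a + p e ≤ 1) : ∃ V, Good m w n S p V := by
  have hcs := card_split p hp univ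
  rw [Finset.card_univ, hE] at hcs
  simp only [Finset.univ_inter] at hcs
  have hZ : (Ze p).card + 2 = m := by omega
  -- the other three
  have h3 : ((Fr p).erase a).card = 3 := by rw [card_erase_of_mem ha, hF]
  obtain ⟨b, c, d, hbc, hbd, hcd, hbcd⟩ := card_eq_three.mp h3
  have hsumF : ∀ g : E → ℝ, ∑ e ∈ Fr p, g e = g a + g b + g c + g d := by
    intro g
    rw [← add_sum_erase _ _ ha, hbcd, sum_insert, sum_insert, sum_singleton]
    · ring
    · rw [mem_singleton]; exact hcd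
    · rw [mem_insert, mem_singleton]; push Not; exact ⟨hbc, hbd⟩
  have hmb : b ∈ (Fr p).erase a := by rw [hbcd]; simp
  have hmc : c ∈ (Fr p).erase a := by rw [hbcd]; simp
  have hmd : d ∈ (Fr p).erase a := by rw [hbcd]; simp
  rw [mem_erase] at hmb hmc hmd
  have fa := mem_Fr.mp ha
  have fb := mem_Fr.mp hmb.2
  have fc := mem_Fr.mp hmc.2
  have fd := mem_Fr.mp hmd.2
  have hs1 := sum_split_one p hp univ
  rw [tot] at hs1
  simp only [Finset.univ_inter] at hs1
  rw [hsumF] at hs1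
  have hOm : ((On p).card : ℝ) = m - 2 := by
    have : (((On p).card + 2 : ℕ) : ℝ) = m := by rw [hO]
    push_cast at this
    linarith
  have hs : p a + p b + p c + p d = 2 := by linarith
  -- the values
  have hP : ∀ k, S k - ∑ e ∈ On p, w e k = p a * w a k + p b * w b k + p c * w c k + p d * w d k := by
    intro k
    have h := sum_split p hp univ (fun e => w e k)
    simp only [Finset.univ_inter] at h
    rw [wt k, hsumF] at h
    linarith
  have hQ : ∀ k, S k - ∑ e ∈ Ze p, w e k = (1 - p a) * w a k + (1 - p b) * w b k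
      + (1 - p c) * w c k + (1 - p d) * w d k := by
    intro k
    have h := sum_split p hp univ (fun e => w e k)
    simp only [Finset.univ_inter] at h
    rw [wt k, hsumF] at h
    have h2 : ∑ e, w e k = ∑ e ∈ On p, w e k + ∑ e ∈ Fr p, w e k + ∑ e ∈ Ze p, w e k := by
      have hun : (univ : Finset E) = (On p ∪ Fr p) ∪ Ze p := by
        ext e
        simp only [mem_univ, mem_union, mem_On, mem_Fr, mem_Ze, true_iff]
        rcases eq_or_lt_of_le (hp e).1 with h | h
        · exact Or.inr h.symm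
        · rcases eq_or_lt_of_le (hp e).2 with h' | h'
          · exact Or.inl (Or.inl h')
          · exact Or.inl (Or.inr ⟨h, h'⟩)
      rw [hun, sum_union, sum_union]
      · rw [disjoint_left]
        intro e h h'
        rw [mem_On] at h
        rw [mem_Fr] at h'
        linarith [h'.2]
      · rw [disjoint_left]
        intro e h h'
        rw [mem_union, mem_On, mem_Fr] at h
        rw [mem_Ze] at h'
        rcases h with h | h
        · linarith
        · linarith [h.1]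
    rw [htot k, hsumF] at h2
    linarith
  by_contra hno
  push Not at hno
  -- candidates
  have cA : ∃ k, Bad ((1 - p a) * w a k + (1 - p b) * w b k
      + (1 - p c) * w c k + (1 - p d) * w d k - w a k) (n k) := by
    by_contra hall
    push Not at hall
    have haZ : a ∉ Ze p := by rw [mem_Ze]; linarith [fa.1]
    apply hno (insert a (Ze p))
    refine ⟨by rw [card_insert_of_notMem haZ]; omega, ?_, Or.inr ⟨subset_insert _ _, ?_⟩⟩
    · intro k
      rw [sum_insert haZ]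
      have := not_bad (hall k)
      rw [← hQ k] at this
      constructor <;> linarith [this.1, this.2]
    · rw [sum_insert haZ]
      have : ∑ e ∈ Ze p, p e = 0 := sum_eq_zero (fun e he => mem_Ze.mp he)
      rw [this, add_zero]; exact fa.2
  have cB : ∀ e, e ∈ Fr p → ∃ k, Bad (p a * w a k + p b * w b k + p c * w c k + p d * w d k
      - w e k) (n k) := by
    intro e he
    by_contra hall
    push Not at hall
    have fe := mem_Fr.mp he
    have heO : e ∉ On p := by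
      rw [mem_On]; intro h; linarith [fe.2]
    apply hno (insert e (On p))
    refine ⟨by rw [card_insert_of_notMem heO]; omega, ?_, Or.inl ⟨subset_insert _ _, ?_⟩⟩
    · intro k
      rw [sum_insert heO]
      have := not_bad (hall k)
      rw [← hP k] at this
      constructor <;> linarith [this.1, this.2]
    · rw [sum_insert heO]
      have : ∑ e ∈ On p, p e = (On p).card := by
        rw [sum_congr rfl (fun e he => mem_On.mp he), sum_const, nsmul_eq_mul, mul_one]
      rw [this, hOm]; linarith [fe.1]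
  exact four_cand (wa := w a) (wb := w b) (wc := w c) (wd := w d) (n := n) fa.1 fa.2 fb.1 fc.1 fd.1 hs
    (hae b hmb.2 hmb.1) (hae c hmc.2 hmc.1) (hae d hmd.2 hmd.1) (hw a) (hw b) (hw c) (hw d)
    cA (cB b hmb.2) (cB c hmc.2) (cB d hmd.2)

end

end Pool.Agent.Helper23.Trade
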