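import Pool.Agent.Helper23.Trade.Profile

/-!
# Separation of winning and losing profiles when there are no trades
-/

open Finset

namespace Pool.Agent.Helper23.Trade

section
set_option linter.unusedSectionVars false
open Classical

/-- Simultaneous approximation of nonnegative reals with a common multiplier. -/
lemma dirichlet {α : Type*} (s : Finset α) (l : α → ℝ) (hl : ∀ a ∈ s, 0 ≤ l a) (K : ℕ)
    (hK : 0 < K) : ∃ N : ℕ, 1 ≤ N ∧ ∃ k : α → ℕ, ∀ a ∈ s, |N * l a - k a| < 1 / K := by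
  have hK' : (0 : ℝ) < K := by exact_mod_cast hK
  have hfr : ∀ x : ℝ, ⌊K * Int.fract x⌋₊ < K := by
    intro x
    rw [Nat.floor_lt (by have := Int.fract_nonneg x; positivity)]
    have := Int.fract_lt_one x
    nlinarith
  obtain ⟨N1, N2, hne, heq⟩ := Finite.exists_ne_map_eq_of_infinite
    (fun N : ℕ => fun a : s => (⟨⌊K * Int.fract ((N : ℝ) * l a)⌋₊, hfr _⟩ : Fin K))
  have key : ∀ N1 N2 : ℕ, N1 < N2 → (∀ a ∈ s, ⌊K * Int.fract ((N1 : ℝ) * l a)⌋₊ =
      ⌊K * Int.fract ((N2 : ℝ) * l a)⌋₊) →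
      ∃ N : ℕ, 1 ≤ N ∧ ∃ k : α → ℕ, ∀ a ∈ s, |N * l a - k a| < 1 / K := by
    intro N1 N2 hlt h
    refine ⟨N2 - N1, by omega, fun a => (⌊(N2 : ℝ) * l a⌋ - ⌊(N1 : ℝ) * l a⌋).toNat, ?_⟩
    intro a ha
    have hmono : ⌊(N1 : ℝ) * l a⌋ ≤ ⌊(N2 : ℝ) * l a⌋ := by
      apply Int.floor_le_floor
      have : (N1 : ℝ) ≤ N2 := by exact_mod_cast hlt.le
      exact mul_le_mul_of_nonneg_right this (hl a ha)
    have hcast : (((⌊(N2 : ℝ) * l a⌋ - ⌊(N1 : ℝ) * l a⌋).toNat : ℕ) : ℝ) =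
        (⌊(N2 : ℝ) * l a⌋ : ℝ) - (⌊(N1 : ℝ) * l a⌋ : ℝ) := by
      have : (((⌊(N2 : ℝ) * l a⌋ - ⌊(N1 : ℝ) * l a⌋).toNat : ℤ)) =
        ⌊(N2 : ℝ) * l a⌋ - ⌊(N1 : ℝ) * l a⌋ := Int.toNat_of_nonneg (by omega)
      exact_mod_cast this
    rw [hcast, Nat.cast_sub hlt.le]
    have e1 : Int.fract ((N1 : ℝ) * l a) = (N1 : ℝ) * l a - ⌊(N1 : ℝ) * l a⌋ := rfl
    have e2 : Int.fract ((N2 : ℝ) * l a) = (N2 : ℝ) * l a - ⌊(N2 : ℝ) * l a⌋ := rfl
    have h' := h a ha
    set F1 := Int.fract ((N1 : ℝ) * l a)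
    set F2 := Int.fract ((N2 : ℝ) * l a)
    have n1 : 0 ≤ K * F1 := mul_nonneg hK'.le (Int.fract_nonneg _)
    have n2 : 0 ≤ K * F2 := mul_nonneg hK'.le (Int.fract_nonneg _)
    have a1 := Nat.floor_le n1
    have a2 := Nat.lt_floor_add_one (K * F1)
    have b1 := Nat.floor_le n2
    have b2 := Nat.lt_floor_add_one (K * F2)
    rw [← h'] at b1 b2
    have : ((N2 : ℝ) - N1) * l a - ((⌊(N2 : ℝ) * l a⌋ : ℝ) - ⌊(N1 : ℝ) * l a⌋) = F2 - F1 := by
      rw [e1, e2]; ring
    rw [this, abs_lt, lt_div_iff₀ hK', neg_lt, lt_div_iff₀ hK']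
    constructor <;> nlinarith
  have hpt : ∀ a ∈ s, ⌊K * Int.fract ((N1 : ℝ) * l a)⌋₊ = ⌊K * Int.fract ((N2 : ℝ) * l a)⌋₊ := by
    intro a ha
    have := congrFun heq ⟨a, ha⟩
    exact congrArg Fin.val this
  rcases lt_or_gt_of_ne hne with h | h
  · exact key N1 N2 h hpt
  · exact key N2 N1 h (fun a ha => (hpt a ha).symm)

variable {Win : (Fin 3 → ℕ) → Prop} {n : Fin 3 → ℕ}

/-- From a convex combination equal to zero to a trade. -/
lemma trade_of_comb {ι : Type*} (s : Finset ι) (l : ι → ℝ) (x y : ι → Fin 3 → ℕ)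
    (hl : ∀ i ∈ s, 0 ≤ l i) (hl1 : ∑ i ∈ s, l i = 1)
    (h0 : ∀ c, ∑ i ∈ s, l i * ((x i c : ℝ) - y i c) = 0)
    (hx : ∀ i ∈ s, x i ≤ n ∧ Win (x i)) (hy : ∀ i ∈ s, y i ≤ n ∧ ¬ Win (y i)) :
    ∃ m, 1 ≤ m ∧ PT Win n m := by
  set C : ℝ := ∑ i ∈ s, (1 + ∑ c, |(x i c : ℝ) - y i c|) with hC
  have hC0 : 0 ≤ C := sum_nonneg fun i _ => by positivity
  obtain ⟨K, hK⟩ := exists_nat_gt C
  have hK0 : (0 : ℝ) < K := lt_of_le_of_lt hC0 hK
  obtain ⟨N, hN, k, hk⟩ := dirichlet s l hl K (by exact_mod_cast hK0)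
  have hCK : C / K < 1 := by rw [div_lt_one hK0]; exact hK
  -- the integer combination vanishes
  have hzero : ∀ c, ∑ i ∈ s, (k i : ℤ) * ((x i c : ℤ) - y i c) = 0 := by
    intro c
    rw [← Int.abs_lt_one_iff]
    have h1 : |∑ i ∈ s, (k i : ℝ) * ((x i c : ℝ) - y i c)| < 1 := by
      have e : ∑ i ∈ s, (k i : ℝ) * ((x i c : ℝ) - y i c) =
          ∑ i ∈ s, ((k i : ℝ) - N * l i) * ((x i c : ℝ) - y i c) := by
        have : ∑ i ∈ s, ((k i : ℝ) - N * l i) * ((x i c : ℝ) - y i c) =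
            ∑ i ∈ s, (k i : ℝ) * ((x i c : ℝ) - y i c) -
              N * ∑ i ∈ s, l i * ((x i c : ℝ) - y i c) := by
          rw [mul_sum, ← sum_sub_distrib]
          exact sum_congr rfl fun i _ => by ring
        rw [this, h0 c]
        ring
      rw [e]
      calc |∑ i ∈ s, ((k i : ℝ) - N * l i) * ((x i c : ℝ) - y i c)|
          ≤ ∑ i ∈ s, |((k i : ℝ) - N * l i) * ((x i c : ℝ) - y i c)| := abs_sum_le_sum_abs _ _
        _ ≤ ∑ i ∈ s, 1 / K * (1 + ∑ c, |(x i c : ℝ) - y i c|) := by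
            apply sum_le_sum
            intro i hi
            rw [abs_mul]
            apply mul_le_mul
            · rw [abs_sub_comm]; exact (hk i hi).le
            · have := single_le_sum (f := fun c => |(x i c : ℝ) - y i c|)
                (fun c _ => abs_nonneg _) (mem_univ c)
              linarith
            · positivity
            · positivity
        _ = C / K := by rw [← mul_sum, ← hC]; ring
        _ < 1 := hCK
    exact_mod_cast h1
  have hpos : 1 ≤ ∑ i ∈ s, k i := by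
    by_contra hcon
    have hz : ∑ i ∈ s, k i = 0 := by omega
    have hz' : ∀ i ∈ s, k i = 0 := sum_eq_zero_iff.mp hz
    have : (N : ℝ) ≤ C / K := by
      calc (N : ℝ) = ∑ i ∈ s, N * l i := by rw [← mul_sum, hl1, mul_one]
        _ ≤ ∑ i ∈ s, 1 / K * (1 + ∑ c, |(x i c : ℝ) - y i c|) := by
            apply sum_le_sum
            intro i hi
            have h1 := hk i hi
            rw [hz' i hi, Nat.cast_zero, sub_zero] at h1
            have h2 := (abs_lt.mp h1).2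
            have h3 : (0 : ℝ) ≤ ∑ c, |(x i c : ℝ) - y i c| := by positivity
            have h4 : (0 : ℝ) < 1 / K := by positivity
            nlinarith
        _ = C / K := by rw [← mul_sum, ← hC]; ring
    have : (1 : ℝ) ≤ N := by exact_mod_cast hN
    linarith
  refine ⟨∑ i ∈ s, k i, hpos, ∑ i ∈ s, Multiset.replicate (k i) (x i),
    ∑ i ∈ s, Multiset.replicate (k i) (y i), ?_, ?_, ?_, ?_, ?_⟩
  · rw [Multiset.card_sum]
    exact sum_congr rfl fun i _ => Multiset.card_replicate _ _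
  · rw [Multiset.card_sum]
    exact sum_congr rfl fun i _ => Multiset.card_replicate _ _
  · intro z hz
    obtain ⟨i, hi, hz⟩ := Multiset.mem_sum.mp hz
    rw [Multiset.eq_of_mem_replicate hz]
    exact hx i hi
  · intro z hz
    obtain ⟨i, hi, hz⟩ := Multiset.mem_sum.mp hz
    rw [Multiset.eq_of_mem_replicate hz]
    exact hy i hi
  · have e : ∀ z : ι → Fin 3 → ℕ, (∑ i ∈ s, Multiset.replicate (k i) (z i)).sum =
        ∑ i ∈ s, k i • z i := by
      intro z
      have := map_sum (Multiset.sumAddMonoidHom (M := Fin 3 → ℕ))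
        (fun i => Multiset.replicate (k i) (z i)) s
      simp only [Multiset.coe_sumAddMonoidHom, Multiset.sum_replicate] at this
      exact this
    rw [e, e]
    funext c
    rw [Finset.sum_apply, Finset.sum_apply]
    simp only [Pi.smul_apply, smul_eq_mul]
    have := hzero c
    simp only [mul_sub, sum_sub_distrib] at this
    have h2 : ∑ i ∈ s, (k i : ℤ) * (x i c : ℤ) = ∑ i ∈ s, (k i : ℤ) * (y i c : ℤ) := by linarith
    exact_mod_cast h2

theorem separate (hno : ∀ m, 1 ≤ m → ¬ PT Win n m) : ∃ w : Fin 3 → ℝ,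
    ∀ x y : Fin 3 → ℕ, x ≤ n → y ≤ n → Win x → ¬ Win y →
      ∑ c, w c * y c < ∑ c, w c * x c := by
  set D : Finset ((Fin 3 → ℕ) × (Fin 3 → ℕ)) :=
    (Finset.Iic n ×ˢ Finset.Iic n).filter (fun p => Win p.1 ∧ ¬ Win p.2) with hD
  set dv : (Fin 3 → ℕ) × (Fin 3 → ℕ) → (Fin 3 → ℝ) := fun p c => (p.1 c : ℝ) - p.2 c with hdv
  by_cases h0 : (0 : Fin 3 → ℝ) ∈ convexHull ℝ ((D.image dv : Finset (Fin 3 → ℝ)) : Set (Fin 3 → ℝ))
  · exfalso
    rw [Finset.mem_convexHull'] at h0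
    obtain ⟨l, hl0, hl1, hl2⟩ := h0
    have hch : ∀ d : Fin 3 → ℝ, ∃ p, d ∈ D.image dv → p ∈ D ∧ dv p = d := by
      intro d
      by_cases hd : d ∈ D.image dv
      · obtain ⟨p, hp, hpd⟩ := mem_image.mp hd
        exact ⟨p, fun _ => ⟨hp, hpd⟩⟩
      · exact ⟨(0, 0), fun h => absurd h hd⟩
    choose g hg using hch
    obtain ⟨m, hm, hPT⟩ := trade_of_comb (Win := Win) (n := n) (D.image dv) l (fun d => (g d).1)
      (fun d => (g d).2) hl0 hl1
      (by
        intro c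
        have := congrFun hl2 c
        rw [Finset.sum_apply] at this
        simp only [Pi.smul_apply, smul_eq_mul, Pi.zero_apply] at this
        rw [← this]
        apply sum_congr rfl
        intro d hd
        have h2 := congrFun (hg d hd).2 c
        simp only [hdv] at h2
        rw [h2])
      (by
        intro d hd
        have h2 := (hg d hd).1
        rw [hD, mem_filter, mem_product, mem_Iic, mem_Iic] at h2
        exact ⟨h2.1.1, h2.2.1⟩)
      (by
        intro d hd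
        have h2 := (hg d hd).1
        rw [hD, mem_filter, mem_product, mem_Iic, mem_Iic] at h2
        exact ⟨h2.1.2, h2.2.2⟩)
    exact hno m hm hPT
  · obtain ⟨f, u, hu1, hu2⟩ := geometric_hahn_banach_point_closed (convex_convexHull ℝ _)
      ((D.image dv).finite_toSet.isClosed_convexHull ℝ) h0
    refine ⟨fun c => f (Pi.single c 1), ?_⟩
    intro x y hx hy hwx hwy
    have hmem : dv (x, y) ∈ convexHull ℝ ((D.image dv : Finset (Fin 3 → ℝ)) : Set (Fin 3 → ℝ)) := by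
      apply subset_convexHull
      rw [mem_coe, mem_image]
      refine ⟨(x, y), ?_, rfl⟩
      rw [hD, mem_filter, mem_product, mem_Iic, mem_Iic]
      exact ⟨⟨hx, hy⟩, hwx, hwy⟩
    have h1 := hu2 _ hmem
    rw [map_zero] at hu1
    have h2 : f (dv (x, y)) = ∑ c, f (Pi.single c 1) * (x c : ℝ) - ∑ c, f (Pi.single c 1) * (y c : ℝ) := by
      have h3 : dv (x, y) = ∑ c, ((x c : ℝ) - y c) • (Pi.single c (1 : ℝ) : Fin 3 → ℝ) := by
        funext c
        rw [Finset.sum_apply]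
        simp [hdv, Pi.single_apply]
      rw [h3, map_sum, ← sum_sub_distrib]
      apply sum_congr rfl
      intro c _
      rw [map_smul, smul_eq_mul]
      ring
    linarith

end

end Pool.Agent.Helper23.Trade
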