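import Pool.Agent.Helper23.Trade.Defs
import Pool.Agent.Helper23.Trade.Separate
import Pool.Agent.Helper23.Trade.Arrange

/-!
# Three types of voters: 3-trade robust games are weighted
-/

open Finset

namespace Pool.Agent.Helper23.Trade

section
set_option linter.unusedSectionVars false

variable {N : Type*} [Fintype N] [DecidableEq N] {W : Set (Finset N)}

lemma exists_type_map (ht : numTypes W ≤ 3) :
    ∃ τ : N → Fin 3, ∀ i j, τ i = τ j → Equivalent W i j := by
  classical
  haveI : Finite (Quotient (typeSetoid W)) := Quotient.finite _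
  haveI : Fintype (Quotient (typeSetoid W)) := Fintype.ofFinite _
  have hcard : Fintype.card (Quotient (typeSetoid W)) ≤ Fintype.card (Fin 3) := by
    rw [Fintype.card_fin, ← Nat.card_eq_fintype_card]
    exact ht
  obtain ⟨e⟩ := Function.Embedding.nonempty_of_card_le hcard
  refine ⟨fun p => e (Quotient.mk _ p), ?_⟩
  intro i j h
  exact Quotient.exact (e.injective h)

lemma prof_le (τ : N → Fin 3) (S : Finset N) : prof τ S ≤ prof τ univ := fun _ =>
  card_le_card (filter_subset_filter _ (subset_univ _))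

lemma card_eq_sum_prof (τ : N → Fin 3) (S : Finset N) : #S = ∑ c, prof τ S c :=
  card_eq_sum_card_fiberwise (fun _ _ => mem_coe.mpr (mem_univ _))

lemma prof_insert (τ : N → Fin 3) (S : Finset N) (p : N) (hp : p ∉ S) (c : Fin 3) :
    prof τ (insert p S) c = prof τ S c + if τ p = c then 1 else 0 := by
  unfold prof
  rw [filter_insert]
  split_ifs with h
  · rw [card_insert_of_notMem (fun h' => hp (mem_filter.mp h').1)]
  · rfl

lemma win_inv {τ : N → Fin 3} (hτ : ∀ i j, τ i = τ j → Equivalent W i j) :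
    ∀ (k : ℕ) (S T : Finset N), #(S \ T) = k → prof τ S = prof τ T → S ∈ W → T ∈ W := by
  intro k
  induction k with
  | zero =>
    intro S T h0 hp hS
    rw [card_eq_zero, sdiff_eq_empty_iff_subset] at h0
    have : S = T := eq_of_subset_of_card_le h0 (by
      rw [card_eq_sum_prof τ T, card_eq_sum_prof τ S, hp])
    rw [← this]; exact hS
  | succ k ih =>
    intro S T hk hp hS
    obtain ⟨p, hpS⟩ : (S \ T).Nonempty := card_pos.mp (by omega)
    rw [mem_sdiff] at hpS
    -- find q in T \ S of the same type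
    have hq : ∃ q ∈ T, q ∉ S ∧ τ q = τ p := by
      by_contra hcon
      push Not at hcon
      have h1 : T.filter (fun r => τ r = τ p) ⊆ S.filter (fun r => τ r = τ p) := by
        intro r hr
        rw [mem_filter] at hr ⊢
        refine ⟨?_, hr.2⟩
        by_contra hrS
        exact hcon r hr.1 hrS hr.2
      have h2 := congrFun hp (τ p)
      have h3 : T.filter (fun r => τ r = τ p) = S.filter (fun r => τ r = τ p) :=
        eq_of_subset_of_card_le h1 (le_of_eq h2)
      have h4 : p ∈ T.filter (fun r => τ r = τ p) := by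
        rw [h3, mem_filter]; exact ⟨hpS.1, rfl⟩
      exact hpS.2 (mem_filter.mp h4).1
    obtain ⟨q, hqT, hqS, hqp⟩ := hq
    have hne : q ≠ p := fun h => hqS (h ▸ hpS.1)
    have hq' : q ∉ S.erase p := fun h => hqS (mem_of_mem_erase h)
    have hSe : insert p (S.erase p) = S := insert_erase hpS.1
    have hS' : insert q (S.erase p) ∈ W := by
      apply (hτ q p hqp).1 (S.erase p) hq' (notMem_erase _ _)
      rw [hSe]; exact hS
    apply ih (insert q (S.erase p)) T _ _ hS'
    · have : insert q (S.erase p) \ T = (S \ T).erase p := by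
        ext r
        simp only [mem_sdiff, mem_insert, mem_erase]
        constructor
        · rintro ⟨h | h, h'⟩
          · subst h; exact absurd hqT h'
          · exact ⟨h.1, h.2, h'⟩
        · rintro ⟨h1, h2, h3⟩
          exact ⟨Or.inr ⟨h1, h2⟩, h3⟩
      rw [this, card_erase_of_mem (mem_sdiff.mpr hpS), hk]
      rfl
    · rw [← hp]
      funext c
      rw [prof_insert τ _ q hq', hqp]
      conv_rhs => rw [← hSe, prof_insert τ _ p (notMem_erase _ _)]

/-- A trade of profiles gives a trade of coalitions. -/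
lemma no_short {τ : N → Fin 3} (hτ : ∀ i j, τ i = τ j → Equivalent W i j)
    (hr : TradeRobust W 3) {m : ℕ} (hm1 : 1 ≤ m) (hm3 : m ≤ 3) :
    ¬ PT (fun x => ∃ S ∈ W, prof τ S = x) (prof τ univ) m := by
  rintro ⟨X, Y, hX, hY, hXw, hYl, hs⟩
  obtain ⟨f, hf⟩ := exists_fun m X hX
  obtain ⟨g, hg⟩ := exists_fun m Y hY
  have hfw : ∀ i, f i ≤ prof τ univ ∧ ∃ S ∈ W, prof τ S = f i := fun i =>
    hXw _ (by rw [← hf]; exact Multiset.mem_map_of_mem f (mem_univ i))
  have hgl : ∀ i, g i ≤ prof τ univ ∧ ¬ ∃ S ∈ W, prof τ S = g i := fun i =>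
    hYl _ (by rw [← hg]; exact Multiset.mem_map_of_mem g (mem_univ i))
  have hsum : ∀ c, ∑ i, f i c = ∑ i, g i c := by
    intro c
    have h1 : ∑ i, f i = ∑ i, g i := by
      change (univ.val.map f).sum = (univ.val.map g).sum
      rw [hf, hg, hs]
    have := congrFun h1 c
    simpa using this
  obtain ⟨F, hF⟩ := arrange τ
  let f' : ℕ → Fin 3 → ℕ := fun i => if h : i < m then f ⟨i, h⟩ else 0
  let g' : ℕ → Fin 3 → ℕ := fun i => if h : i < m then g ⟨i, h⟩ else 0
  have hf' : ∀ i : Fin m, f' i = f i := fun i => by simp [f']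
  have hg' : ∀ i : Fin m, g' i = g i := fun i => by simp [g']
  have hf'n : ∀ i, f' i ≤ prof τ univ := by
    intro i
    by_cases h : i < m
    · simp only [f', h, dite_true]; exact (hfw _).1
    · simp only [f', h, dite_false]; exact fun c => Nat.zero_le _
  have hg'n : ∀ i, g' i ≤ prof τ univ := by
    intro i
    by_cases h : i < m
    · simp only [g', h, dite_true]; exact (hgl _).1
    · simp only [g', h, dite_false]; exact fun c => Nat.zero_le _
  obtain ⟨A, hA1, hA2⟩ := hF f' hf'n
  obtain ⟨B, hB1, hB2⟩ := hF g' hg'n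
  have htr : IsTrade (fun i : Fin m => A i) (fun i : Fin m => B i) := by
    intro p
    rw [card_filter, card_filter]
    have h1 := hA2 p m
    have h2 := hB2 p m
    rw [Finset.sum_range] at h1 h2
    rw [h1, h2, Finset.sum_range, Finset.sum_range]
    congr 1
    have h3 := hsum (τ p)
    simp only [hf', hg']
    exact h3
  obtain ⟨i, hi⟩ := hr m hm1 hm3 _ _ htr (by
    intro i
    obtain ⟨S, hS, hSp⟩ := (hfw i).2
    apply win_inv hτ _ S (A i) rfl _ hS
    rw [hSp, hA1, hf'])
  apply (hgl i).2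
  exact ⟨B i, hi, by rw [hB1, hg']⟩

theorem main (hW : IsSimpleGame W) (ht : numTypes W ≤ 3) (hr : TradeRobust W 3) :
    Weighted W := by
  classical
  obtain ⟨τ, hτ⟩ := exists_type_map ht
  obtain ⟨w, hw⟩ := separate (Win := fun x => ∃ S ∈ W, prof τ S = x) (n := prof τ univ) (by
    intro m hm h
    obtain ⟨m', h1, h2, h3⟩ := shorten_three hm h
    exact no_short hτ hr h1 h2 h3)
  have hprofsum : ∀ S : Finset N, ∑ c, w c * prof τ S c = ∑ p ∈ S, w (τ p) := by
    intro S
    rw [← sum_fiberwise_of_maps_to (s := S) (t := univ) (g := τ) (fun _ _ => mem_univ _)]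
    apply sum_congr rfl
    intro c _
    rw [sum_congr rfl (fun p hp => by rw [(mem_filter.mp hp).2] : ∀ p ∈ S.filter (fun p => τ p = c),
      w (τ p) = w c), sum_const, nsmul_eq_mul, mul_comm]
    rfl
  have hsep : ∀ S T : Finset N, S ∈ W → T ∉ W → ∑ p ∈ T, w (τ p) < ∑ p ∈ S, w (τ p) := by
    intro S T hS hT
    rw [← hprofsum, ← hprofsum]
    apply hw _ _ (prof_le τ S) (prof_le τ T) ⟨S, hS, rfl⟩
    rintro ⟨S', hS', hp⟩
    exact hT (win_inv hτ _ S' T rfl hp hS')
  set v : N → ℝ := fun p => max (w (τ p)) 0 with hv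
  set P : Finset N := univ.filter (fun p => w (τ p) < 0) with hP
  have hv1 : ∀ S : Finset N, ∑ p ∈ S, v p = ∑ p ∈ S \ P, w (τ p) := by
    intro S
    rw [← sum_inter_add_sum_sdiff S P v]
    have e1 : ∑ p ∈ S ∩ P, v p = 0 := by
      apply sum_eq_zero
      intro p hp
      rw [mem_inter, hP, mem_filter] at hp
      simp only [hv]
      exact max_eq_right hp.2.2.le
    have e2 : ∑ p ∈ S \ P, v p = ∑ p ∈ S \ P, w (τ p) := by
      apply sum_congr rfl
      intro p hp
      rw [mem_sdiff, hP, mem_filter] at hp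
      simp only [mem_univ, true_and, not_lt] at hp
      simp only [hv]
      exact max_eq_left hp.2
    rw [e1, e2, zero_add]
  have hsep2 : ∀ S T : Finset N, S ∈ W → T ∉ W → ∑ p ∈ T, v p < ∑ p ∈ S, v p := by
    intro S T hS hT
    have h1 : S ∪ P ∈ W := hW.upward S _ hS subset_union_left
    have h2 : T \ P ∉ W := fun h => hT (hW.upward _ T h sdiff_subset)
    have h3 := hsep _ _ h1 h2
    rw [hv1, hv1]
    have h4 : ∑ p ∈ S ∪ P, w (τ p) = ∑ p ∈ S \ P, w (τ p) + ∑ p ∈ P, w (τ p) := by
      rw [← sum_union sdiff_disjoint, sdiff_union_self_eq_union]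
    have h5 : ∑ p ∈ P, w (τ p) ≤ 0 := by
      apply sum_nonpos
      intro p hp
      rw [hP, mem_filter] at hp
      exact hp.2.le
    linarith
  -- the quota
  set Wf : Finset (Finset N) := univ.filter (fun S => S ∈ W) with hWf
  have hne : Wf.Nonempty := ⟨univ, by rw [hWf, mem_filter]; exact ⟨mem_univ _, hW.univ_winning⟩⟩
  obtain ⟨S0, hS0, hmin⟩ := Wf.exists_min_image (fun S => ∑ p ∈ S, v p) hne
  rw [hWf, mem_filter] at hS0
  refine ⟨v, ∑ p ∈ S0, v p, fun p => le_max_right _ _, ?_⟩
  intro S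
  constructor
  · intro hS
    exact hmin S (by rw [hWf, mem_filter]; exact ⟨mem_univ _, hS⟩)
  · intro h
    by_contra hS
    have := hsep2 S0 S hS0.2 hS
    linarith

end

end Pool.Agent.Helper23.Trade
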