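import Mathlib

/-!
# Fractional points: moving along a kernel direction
-/

open Finset

namespace Pool.Agent.Helper23.Trade

section
set_option linter.unusedSectionVars false
open Classical
variable {E : Type*} [Fintype E]

/-- Fractional coordinates. -/
noncomputable def Fr (p : E → ℝ) : Finset E := univ.filter (fun e => 0 < p e ∧ p e < 1)
/-- Coordinates equal to one. -/
noncomputable def On (p : E → ℝ) : Finset E := univ.filter (fun e => p e = 1)
/-- Coordinates equal to zero. -/
noncomputable def Ze (p : E → ℝ) : Finset E := univ.filter (fun e => p e = 0)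

lemma mem_Fr {p : E → ℝ} {e : E} : e ∈ Fr p ↔ 0 < p e ∧ p e < 1 := by simp [Fr]
lemma mem_On {p : E → ℝ} {e : E} : e ∈ On p ↔ p e = 1 := by simp [On]
lemma mem_Ze {p : E → ℝ} {e : E} : e ∈ Ze p ↔ p e = 0 := by simp [Ze]

lemma exists_kernel (F : Finset E) (r : ℕ) (φ : E → Fin r → ℝ) (h : r < F.card) :
    ∃ d : E → ℝ, (∀ e, d e ≠ 0 → e ∈ F) ∧ (∃ e, d e ≠ 0) ∧ ∀ k, ∑ e, d e * φ e k = 0 := by
  have hnl : ¬ LinearIndependent ℝ (fun e : F => φ e) := by
    intro hl
    have := hl.fintype_card_le_finrank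
    rw [Module.finrank_fin_fun, Fintype.card_coe] at this
    omega
  rw [Fintype.not_linearIndependent_iff] at hnl
  obtain ⟨g, hg, i, hi⟩ := hnl
  refine ⟨fun e => if h : e ∈ F then g ⟨e, h⟩ else 0, ?_, ⟨i, ?_⟩, ?_⟩
  · intro e he
    by_contra hne
    simp only [dif_neg hne, ne_eq, not_true_eq_false] at he
  · simp only [i.2, dif_pos]
    exact hi
  · intro k
    have h1 := congrFun hg k
    rw [Finset.sum_apply] at h1
    simp only [Pi.smul_apply, smul_eq_mul, Pi.zero_apply] at h1
    refine Eq.trans ?_ h1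
    rw [← Finset.sum_subset (Finset.subset_univ F)]
    · rw [← Finset.sum_attach]
      apply Finset.sum_congr rfl
      intro e _
      simp only [e.2, dif_pos]
    · intro e _ he
      simp only [dif_neg he, zero_mul]

lemma move (p d : E → ℝ) (hp : ∀ e, 0 ≤ p e ∧ p e ≤ 1) (hd : ∃ e, d e ≠ 0)
    (hs : ∀ e, d e ≠ 0 → e ∈ Fr p) :
    ∃ τ : ℝ, 0 < τ ∧ (∀ e, 0 ≤ p e + τ * d e ∧ p e + τ * d e ≤ 1) ∧
      (Fr (fun e => p e + τ * d e)).card < (Fr p).card ∧
      (∀ e, p e = 1 → p e + τ * d e = 1) ∧ (∀ e, p e = 0 → p e + τ * d e = 0) := by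
  set S : Finset E := univ.filter (fun e => d e ≠ 0) with hS
  have hSne : S.Nonempty := by
    obtain ⟨e, he⟩ := hd
    exact ⟨e, by rw [hS, mem_filter]; exact ⟨mem_univ _, he⟩⟩
  set step : E → ℝ := fun e => if 0 < d e then (1 - p e) / d e else p e / (-d e) with hstep
  obtain ⟨e0, he0, hmin⟩ := S.exists_min_image step hSne
  have he0' : d e0 ≠ 0 := by rw [hS, mem_filter] at he0; exact he0.2
  have hpos : ∀ e, d e ≠ 0 → 0 < step e := by
    intro e he
    have h1 := mem_Fr.mp (hs e he)
    simp only [hstep]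
    split_ifs with h
    · exact div_pos (by linarith) h
    · have : d e < 0 := lt_of_le_of_ne (not_lt.mp h) he
      exact div_pos h1.1 (by linarith)
  have hbd : ∀ e, 0 ≤ p e + step e0 * d e ∧ p e + step e0 * d e ≤ 1 := by
    intro e
    by_cases he : d e = 0
    · rw [he, mul_zero, add_zero]; exact hp e
    · have heS : e ∈ S := by rw [hS, mem_filter]; exact ⟨mem_univ _, he⟩
      have h1 := hmin e heS
      have h2 := hpos e0 he0'
      have h3 := mem_Fr.mp (hs e he)
      rcases lt_or_gt_of_ne he with h | h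
      · have h4 : step e = p e / (-d e) := by simp only [hstep]; rw [if_neg (by linarith)]
        rw [h4, le_div_iff₀ (by linarith)] at h1
        constructor
        · nlinarith
        · nlinarith
      · have h4 : step e = (1 - p e) / d e := by simp only [hstep]; rw [if_pos h]
        rw [h4, le_div_iff₀ h] at h1
        constructor
        · nlinarith
        · nlinarith
  have hz : ∀ e, e ∉ Fr p → d e = 0 := by
    intro e he
    by_contra hne
    exact he (hs e hne)
  refine ⟨step e0, hpos e0 he0', hbd, ?_, ?_, ?_⟩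
  · apply card_lt_card
    rw [ssubset_iff_of_subset]
    · refine ⟨e0, hs e0 he0', ?_⟩
      rw [mem_Fr]
      rintro ⟨h1, h2⟩
      rcases lt_or_gt_of_ne he0' with h | h
      · have h4 : step e0 = p e0 / (-d e0) := by simp only [hstep]; rw [if_neg (by linarith)]
        have : p e0 + step e0 * d e0 = 0 := by
          rw [h4]; field_simp; ring
        linarith
      · have h4 : step e0 = (1 - p e0) / d e0 := by simp only [hstep]; rw [if_pos h]
        have : p e0 + step e0 * d e0 = 1 := by
          rw [h4]; field_simp; ring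
        linarith
    · intro e he
      by_contra hne
      have := hz e hne
      rw [mem_Fr] at he hne
      simp only [this, mul_zero, add_zero] at he
      exact hne he
  · intro e he
    have : d e = 0 := hz e (by rw [mem_Fr]; rintro ⟨_, h⟩; linarith)
    rw [this, he]; ring
  · intro e he
    have : d e = 0 := hz e (by rw [mem_Fr]; rintro ⟨h, _⟩; linarith)
    rw [this, he]; ring

/-- Splitting a sum according to the value of `p`. -/
lemma sum_split (p : E → ℝ) (hp : ∀ e, 0 ≤ p e ∧ p e ≤ 1) (S : Finset E) (f : E → ℝ) :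
    ∑ e ∈ S, p e * f e = ∑ e ∈ S ∩ On p, f e + ∑ e ∈ S ∩ Fr p, p e * f e := by
  have h1 : S = (S ∩ On p) ∪ ((S ∩ Fr p) ∪ (S ∩ Ze p)) := by
    ext e
    simp only [mem_union, mem_inter, mem_On, mem_Fr, mem_Ze]
    constructor
    · intro he
      rcases eq_or_lt_of_le (hp e).1 with h | h
      · exact Or.inr (Or.inr ⟨he, h.symm⟩)
      · rcases eq_or_lt_of_le (hp e).2 with h' | h'
        · exact Or.inl ⟨he, h'⟩
        · exact Or.inr (Or.inl ⟨he, h, h'⟩)
    · rintro (h | h | h)
      · exact h.1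
      · exact h.1
      · exact h.1
  have d1 : Disjoint (S ∩ Fr p) (S ∩ Ze p) := by
    rw [disjoint_left]
    intro e h h'
    simp only [mem_inter, mem_Fr, mem_Ze] at h h'
    linarith [h.2.1, h'.2]
  have d2 : Disjoint (S ∩ On p) ((S ∩ Fr p) ∪ (S ∩ Ze p)) := by
    rw [disjoint_left]
    intro e h h'
    simp only [mem_union, mem_inter, mem_On, mem_Fr, mem_Ze] at h h'
    rcases h' with h' | h'
    · linarith [h.2, h'.2.2]
    · linarith [h.2, h'.2]
  conv_lhs => rw [h1]
  rw [sum_union d2, sum_union d1]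
  have e1 : ∑ e ∈ S ∩ On p, p e * f e = ∑ e ∈ S ∩ On p, f e := by
    apply sum_congr rfl
    intro e he
    rw [mem_inter, mem_On] at he
    rw [he.2, one_mul]
  have e2 : ∑ e ∈ S ∩ Ze p, p e * f e = 0 := by
    apply sum_eq_zero
    intro e he
    rw [mem_inter, mem_Ze] at he
    rw [he.2, zero_mul]
  rw [e1, e2, add_zero]

lemma sum_split_one (p : E → ℝ) (hp : ∀ e, 0 ≤ p e ∧ p e ≤ 1) (S : Finset E) :
    ∑ e ∈ S, p e = (S ∩ On p).card + ∑ e ∈ S ∩ Fr p, p e := by
  have := sum_split p hp S (fun _ => 1)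
  simp only [mul_one, sum_const, nsmul_eq_mul] at this
  exact this

lemma card_split (p : E → ℝ) (hp : ∀ e, 0 ≤ p e ∧ p e ≤ 1) (S : Finset E) :
    S.card = (S ∩ On p).card + (S ∩ Fr p).card + (S ∩ Ze p).card := by
  have h1 : S = (S ∩ On p) ∪ ((S ∩ Fr p) ∪ (S ∩ Ze p)) := by
    ext e
    simp only [mem_union, mem_inter, mem_On, mem_Fr, mem_Ze]
    constructor
    · intro he
      rcases eq_or_lt_of_le (hp e).1 with h | h
      · exact Or.inr (Or.inr ⟨he, h.symm⟩)
      · rcases eq_or_lt_of_le (hp e).2 with h' | h'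
        · exact Or.inl ⟨he, h'⟩
        · exact Or.inr (Or.inl ⟨he, h, h'⟩)
    · rintro (h | h | h)
      · exact h.1
      · exact h.1
      · exact h.1
  have d1 : Disjoint (S ∩ Fr p) (S ∩ Ze p) := by
    rw [disjoint_left]
    intro e h h'
    simp only [mem_inter, mem_Fr, mem_Ze] at h h'
    linarith [h.2.1, h'.2]
  have d2 : Disjoint (S ∩ On p) ((S ∩ Fr p) ∪ (S ∩ Ze p)) := by
    rw [disjoint_left]
    intro e h h'
    simp only [mem_union, mem_inter, mem_On, mem_Fr, mem_Ze] at h h'
    rcases h' with h' | h'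
    · linarith [h.2, h'.2.2]
    · linarith [h.2, h'.2]
  conv_lhs => rw [h1]
  rw [card_union_of_disjoint d2, card_union_of_disjoint d1]
  ring

end

end Pool.Agent.Helper23.Trade
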