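import Pool.Agent.Helper23.Trade.Shorten

/-!
# Trades of profiles, and how to shorten them
-/

open Finset

namespace Pool.Agent.Helper23.Trade

section
set_option linter.unusedSectionVars false
open Classical

/-- Trades of profiles: `m` winning and `m` losing profiles in the box `n` with equal sums. -/
def PT (Win : (Fin 3 → ℕ) → Prop) (n : Fin 3 → ℕ) (m : ℕ) : Prop :=
  ∃ X Y : Multiset (Fin 3 → ℕ), Multiset.card X = m ∧ Multiset.card Y = m ∧
    (∀ x ∈ X, x ≤ n ∧ Win x) ∧ (∀ y ∈ Y, y ≤ n ∧ ¬ Win y) ∧ X.sum = Y.sum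

lemma exists_fun {α : Type*} (m : ℕ) (X : Multiset α) (h : Multiset.card X = m) :
    ∃ f : Fin m → α, (univ : Finset (Fin m)).val.map f = X := by
  subst h
  induction X using Quotient.inductionOn with
  | h l =>
    refine ⟨fun i => l.get i, ?_⟩
    change Multiset.map (fun i => l.get i) ((List.finRange l.length : List (Fin l.length)) :
      Multiset (Fin l.length)) = _
    rw [Multiset.map_coe]
    exact congrArg _ (List.map_get_finRange l)

variable {Win : (Fin 3 → ℕ) → Prop} {n : Fin 3 → ℕ}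

theorem shorten_aux {E : Type} [Fintype E] {m : ℕ} (hm : 4 ≤ m) (P : E → Fin 3 → ℕ)
    (X Y : Finset E) (hXm : ∀ e ∈ X, P e ≤ n ∧ Win (P e)) (hYm : ∀ e ∈ Y, P e ≤ n ∧ ¬ Win (P e))
    (hdisj : Disjoint X Y) (hun' : ∀ e, e ∈ X ∨ e ∈ Y) (hXc : X.card = m) (hYc : Y.card = m)
    (hXsum : ∀ c, ∑ e ∈ X, P e c = ∑ e ∈ Y, P e c) :
    ∃ m', 1 ≤ m' ∧ m' < m ∧ PT Win n m' := by
  have hun : X ∪ Y = univ := by
    ext e
    simp only [mem_union, mem_univ, iff_true]
    exact hun' e
  obtain ⟨V, hXV, hYV, hV⟩ := exists_V m hm X Y hdisj hun hXc hYc (fun e c => (P e c : ℝ))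
    (fun c => (n c : ℝ))
    (fun e c => by
      refine ⟨Nat.cast_nonneg _, ?_⟩
      have : P e ≤ n := by
        have : e ∈ X ∪ Y := by rw [hun]; exact mem_univ _
        rcases mem_union.mp this with h | h
        · exact (hXm e h).1
        · exact (hYm e h).1
      exact_mod_cast this c)
    (fun c => by exact_mod_cast hXsum c)
  -- decompositions
  have dec : ∀ (φ : E → ℕ) (Z : Finset (E)),
      ∑ e ∈ Z, φ e = ∑ e ∈ Z ∩ V, φ e + ∑ e ∈ Z \ V, φ e := fun φ Z =>
    (sum_inter_add_sum_sdiff Z V φ).symm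
  have decV : ∀ (φ : E → ℕ),
      ∑ e ∈ V, φ e = ∑ e ∈ X ∩ V, φ e + ∑ e ∈ Y ∩ V, φ e := by
    intro φ
    rw [← sum_union]
    · congr 1
      rw [← union_inter_distrib_right, hun, univ_inter]
    · exact disjoint_of_subset_left inter_subset_left
        (disjoint_of_subset_right inter_subset_left hdisj)
  have hcX := dec (fun _ => 1) X
  have hcY := dec (fun _ => 1) Y
  have hcV := decV (fun _ => 1)
  simp only [sum_const, smul_eq_mul, mul_one] at hcX hcY hcV
  have hXV1 := hXV.card_pos
  have hYV1 := hYV.card_pos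
  have ms : ∀ (Z : Finset (E)) c,
      (Z.val.map P).sum c = ∑ e ∈ Z, P e c := by
    intro Z c
    change (∑ e ∈ Z, P e) c = _
    exact Finset.sum_apply _ _ _
  rcases hV with ⟨hVc, hVs⟩ | ⟨hVc, hVs⟩
  · -- equality of sums
    refine ⟨(X \ V).card, by omega, by omega, (X \ V).val.map P, (Y ∩ V).val.map P, ?_, ?_, ?_,
      ?_, ?_⟩
    · rw [Multiset.card_map]; rfl
    · rw [Multiset.card_map]
      change (Y ∩ V).card = _
      omega
    · intro x hx
      obtain ⟨e, he, rfl⟩ := Multiset.mem_map.mp hx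
      exact hXm e (mem_sdiff.mp he).1
    · intro x hx
      obtain ⟨e, he, rfl⟩ := Multiset.mem_map.mp hx
      exact hYm e (mem_inter.mp he).1
    · funext c
      rw [ms, ms]
      have h1 := dec (fun e => P e c) X
      have h2 := decV (fun e => P e c)
      have h3 : ∑ e ∈ V, P e c = ∑ e ∈ X, P e c := by 
        have := hVs c
        simp only at this
        exact_mod_cast this
      omega
  · -- a candidate profile
    have hle : ∀ c, ∑ e ∈ V, P e c ≤ ∑ e ∈ X, P e c := by
      intro c
      have := (hVs c).1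
      have h' : (∑ e ∈ V, (P e c : ℝ)) ≤ ∑ e ∈ X, (P e c : ℝ) := by linarith
      exact_mod_cast h'
    have hle2 : ∀ c, ∑ e ∈ X, P e c ≤ n c + ∑ e ∈ V, P e c := by
      intro c
      have := (hVs c).2
      have h' : (∑ e ∈ X, (P e c : ℝ)) ≤ (n c : ℝ) + ∑ e ∈ V, (P e c : ℝ) := by linarith
      exact_mod_cast h'
    set q : Fin 3 → ℕ := fun c => ∑ e ∈ X, P e c - ∑ e ∈ V, P e c with hq
    have hqn : q ≤ n := by
      intro c
      have := hle2 c
      simp only [hq]
      omega
    by_cases hw : Win q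
    · refine ⟨(Y \ V).card, by omega, by omega, q ::ₘ (X ∩ V).val.map P, (Y \ V).val.map P, ?_,
        ?_, ?_, ?_, ?_⟩
      · rw [Multiset.card_cons, Multiset.card_map]
        change (X ∩ V).card + 1 = _
        omega
      · rw [Multiset.card_map]; rfl
      · intro x hx
        rcases Multiset.mem_cons.mp hx with rfl | hx
        · exact ⟨hqn, hw⟩
        · obtain ⟨e, he, rfl⟩ := Multiset.mem_map.mp hx
          exact hXm e (mem_inter.mp he).1
      · intro x hx
        obtain ⟨e, he, rfl⟩ := Multiset.mem_map.mp hx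
        exact hYm e (mem_sdiff.mp he).1
      · funext c
        rw [Multiset.sum_cons, Pi.add_apply, ms, ms]
        have h1 := dec (fun e => P e c) Y
        have h2 := decV (fun e => P e c)
        have h3 := hXsum c
        have h4 := hle c
        simp only [hq]
        omega
    · refine ⟨(X \ V).card, by omega, by omega, (X \ V).val.map P, q ::ₘ (Y ∩ V).val.map P, ?_,
        ?_, ?_, ?_, ?_⟩
      · rw [Multiset.card_map]; rfl
      · rw [Multiset.card_cons, Multiset.card_map]
        change (Y ∩ V).card + 1 = _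
        omega
      · intro x hx
        obtain ⟨e, he, rfl⟩ := Multiset.mem_map.mp hx
        exact hXm e (mem_sdiff.mp he).1
      · intro x hx
        rcases Multiset.mem_cons.mp hx with rfl | hx
        · exact ⟨hqn, hw⟩
        · obtain ⟨e, he, rfl⟩ := Multiset.mem_map.mp hx
          exact hYm e (mem_inter.mp he).1
      · funext c
        rw [Multiset.sum_cons, Pi.add_apply, ms, ms]
        have h1 := dec (fun e => P e c) X
        have h2 := decV (fun e => P e c)
        have h4 := hle c
        simp only [hq]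
        omega

theorem shorten {m : ℕ} (hm : 4 ≤ m) (h : PT Win n m) :
    ∃ m', 1 ≤ m' ∧ m' < m ∧ PT Win n m' := by
  obtain ⟨X0, Y0, hX0, hY0, hXw, hYl, hs⟩ := h
  obtain ⟨f, hf⟩ := exists_fun m X0 hX0
  obtain ⟨g, hg⟩ := exists_fun m Y0 hY0
  have hfw : ∀ i, f i ≤ n ∧ Win (f i) := fun i =>
    hXw _ (by rw [← hf]; exact Multiset.mem_map_of_mem f (mem_univ i))
  have hgl : ∀ i, g i ≤ n ∧ ¬ Win (g i) := fun i =>
    hYl _ (by rw [← hg]; exact Multiset.mem_map_of_mem g (mem_univ i))
  have hsum : ∀ c, ∑ i, f i c = ∑ i, g i c := by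
    intro c
    have h1 : ∑ i, f i = ∑ i, g i := by
      change (univ.val.map f).sum = (univ.val.map g).sum
      rw [hf, hg, hs]
    have := congrFun h1 c
    simpa using this
  set P : Fin m ⊕ Fin m → (Fin 3 → ℕ) := Sum.elim f g with hP
  set X : Finset (Fin m ⊕ Fin m) := univ.map Function.Embedding.inl with hXdef
  set Y : Finset (Fin m ⊕ Fin m) := univ.map Function.Embedding.inr with hYdef
  have hXm : ∀ e ∈ X, P e ≤ n ∧ Win (P e) := by
    intro e he
    rw [hXdef, mem_map] at he
    obtain ⟨i, _, rfl⟩ := he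
    exact hfw i
  have hYm : ∀ e ∈ Y, P e ≤ n ∧ ¬ Win (P e) := by
    intro e he
    rw [hYdef, mem_map] at he
    obtain ⟨i, _, rfl⟩ := he
    exact hgl i
  have hdisj : Disjoint X Y := by
    rw [disjoint_left]
    intro e he he'
    exact (hYm e he').2 (hXm e he).2
  have hun : ∀ e, e ∈ X ∨ e ∈ Y := by
    intro e
    rcases e with i | i
    · left; rw [hXdef, mem_map]; exact ⟨i, mem_univ _, rfl⟩
    · right; rw [hYdef, mem_map]; exact ⟨i, mem_univ _, rfl⟩
  have hXc : X.card = m := by rw [hXdef, card_map, card_univ, Fintype.card_fin]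
  have hYc : Y.card = m := by rw [hYdef, card_map, card_univ, Fintype.card_fin]
  have hXsum : ∀ c, ∑ e ∈ X, P e c = ∑ e ∈ Y, P e c := by
    intro c
    rw [hXdef, hYdef, sum_map, sum_map]
    exact hsum c
  exact shorten_aux hm P X Y hXm hYm hdisj hun hXc hYc hXsum

/-- Every trade of profiles can be shortened to one of size at most three. -/
theorem shorten_three {m : ℕ} (hm : 1 ≤ m) (h : PT Win n m) :
    ∃ m', 1 ≤ m' ∧ m' ≤ 3 ∧ PT Win n m' := by
  induction m using Nat.strong_induction_on with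
  | _ m ih =>
    by_cases h3 : m ≤ 3
    · exact ⟨m, hm, h3, h⟩
    · obtain ⟨m', h1, h2, h3⟩ := shorten (by omega) h
      exact ih m' h2 h1 h3

end

end Pool.Agent.Helper23.Trade
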