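import Pool.Agent.Helper23.Trade.Local

/-!
# Rounding a point with at most four fractional coordinates
-/

open Finset

namespace Pool.Agent.Helper23.Trade

section
set_option linter.unusedSectionVars false
open Classical
variable {E : Type*} [Fintype E]

lemma On_compl (p : E → ℝ) : On (fun e => 1 - p e) = Ze p := by
  ext e; rw [mem_On, mem_Ze]; constructor <;> intro h <;> linarith

lemma Ze_compl (p : E → ℝ) : Ze (fun e => 1 - p e) = On p := by
  ext e; rw [mem_On, mem_Ze]; constructor <;> intro h <;> linarith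

lemma Fr_compl (p : E → ℝ) : Fr (fun e => 1 - p e) = Fr p := by
  ext e; rw [mem_Fr, mem_Fr]; constructor <;> intro h <;> constructor <;> linarith [h.1, h.2]

lemma round_case2 (m : ℕ) (hE : Fintype.card E = 2 * m) (w : E → Fin 3 → ℝ) (n S : Fin 3 → ℝ)
    (hw : ∀ e c, 0 ≤ w e c ∧ w e c ≤ n c) (htot : ∀ c, ∑ e, w e c = 2 * S c) (p : E → ℝ)
    (hp : ∀ e, 0 ≤ p e ∧ p e ≤ 1) (tot : ∑ e, p e = m) (wt : ∀ c, ∑ e, p e * w e c = S c)
    (hF : (Fr p).card = 4) (hO : (On p).card + 2 = m) (a : E) (ha : a ∈ Fr p)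
    (hae : ∀ e ∈ Fr p, e ≠ a → 1 ≤ p a + p e) : ∃ V, Good m w n S p V := by
  have hcs := card_split p hp univ
  rw [Finset.card_univ, hE] at hcs
  simp only [Finset.univ_inter] at hcs
  have hp' : ∀ e, 0 ≤ (fun e => 1 - p e) e ∧ (fun e => 1 - p e) e ≤ 1 := by
    intro e
    constructor
    · show (0 : ℝ) ≤ 1 - p e
      linarith [(hp e).2]
    · show (1 : ℝ) - p e ≤ 1
      linarith [(hp e).1]
  have tot' : ∑ e, (fun e => 1 - p e) e = m := by
    show ∑ e, (1 - p e) = (m : ℝ)
    rw [sum_sub_distrib, tot, sum_const, Finset.card_univ, hE, nsmul_eq_mul]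
    push_cast; ring
  have wt' : ∀ c, ∑ e, (fun e => 1 - p e) e * w e c = S c := by
    intro c
    show ∑ e, (1 - p e) * w e c = S c
    have : ∀ e ∈ (univ : Finset E), (1 - p e) * w e c = w e c - p e * w e c := fun e _ => by ring
    rw [sum_congr rfl this, sum_sub_distrib, htot, wt]; ring
  obtain ⟨V, hV1, hV2, hV3⟩ := round_case1 m hE w n S hw htot (fun e => 1 - p e) hp' tot' wt'
    (by rw [Fr_compl]; exact hF) (by rw [On_compl]; omega) a (by rw [Fr_compl]; exact ha)
    (by
      intro e he hne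
      rw [Fr_compl] at he
      have := hae e he hne
      show 1 - p a + (1 - p e) ≤ 1
      linarith)
  refine ⟨V, hV1, hV2, ?_⟩
  have hsum : ∑ e ∈ V, (1 - p e) = (m : ℝ) - 1 - ∑ e ∈ V, p e := by
    rw [sum_sub_distrib, sum_const, nsmul_eq_mul, mul_one, ← hV1]
    push_cast; ring
  rw [On_compl, Ze_compl] at hV3
  rcases hV3 with ⟨h1, h2⟩ | ⟨h1, h2⟩
  · right
    refine ⟨h1, ?_⟩
    have h2' : (m : ℝ) - 2 < ∑ e ∈ V, (1 - p e) := h2
    linarith
  · left
    refine ⟨h1, ?_⟩
    have h2' : ∑ e ∈ V, (1 - p e) < 1 := h2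
    linarith

theorem round (m : ℕ) (hE : Fintype.card E = 2 * m) (w : E → Fin 3 → ℝ) (n S : Fin 3 → ℝ)
    (hw : ∀ e c, 0 ≤ w e c ∧ w e c ≤ n c) (htot : ∀ c, ∑ e, w e c = 2 * S c) (p : E → ℝ)
    (hp : ∀ e, 0 ≤ p e ∧ p e ≤ 1) (tot : ∑ e, p e = m) (wt : ∀ c, ∑ e, p e * w e c = S c)
    (hF : (Fr p).card ≤ 4) : Fr p = ∅ ∨ ∃ V, Good m w n S p V := by
  rcases (Fr p).eq_empty_or_nonempty with he | hne
  · exact Or.inl he
  right
  have hcs := card_split p hp univ
  rw [Finset.card_univ, hE] at hcs
  simp only [Finset.univ_inter] at hcs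
  have hs1 := sum_split_one p hp univ
  rw [tot] at hs1
  simp only [Finset.univ_inter] at hs1
  have hpos : 0 < ∑ e ∈ Fr p, p e := sum_pos (fun e he => (mem_Fr.mp he).1) hne
  have hlt : ∑ e ∈ Fr p, p e < (Fr p).card := by
    have : ∑ e ∈ Fr p, p e < ∑ e ∈ Fr p, (1 : ℝ) :=
      sum_lt_sum_of_nonempty hne (fun e he => (mem_Fr.mp he).2)
    rwa [sum_const, nsmul_eq_mul, mul_one] at this
  have hOm : (On p).card < m := by
    have : ((On p).card : ℝ) < m := by linarith
    exact_mod_cast this
  obtain ⟨f, hf⟩ : ∃ f, (On p).card + f = m := ⟨m - (On p).card, by omega⟩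
  have hf' : ∑ e ∈ Fr p, p e = f := by
    have : (((On p).card + f : ℕ) : ℝ) = m := by rw [hf]
    push_cast at this
    linarith
  have hfpos : 0 < f := by omega
  have hflt : f < (Fr p).card := by
    rw [hf'] at hlt
    exact_mod_cast hlt
  have hPv : ∀ k, S k - ∑ e ∈ On p, w e k = ∑ e ∈ Fr p, p e * w e k := by
    intro k
    have h := sum_split p hp univ (fun e => w e k)
    simp only [Finset.univ_inter] at h
    rw [wt k] at h
    linarith
  have hQv : ∀ k, S k - ∑ e ∈ Ze p, w e k = ∑ e ∈ Fr p, (1 - p e) * w e k := by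
    intro k
    have h := sum_split p hp univ (fun e => w e k)
    simp only [Finset.univ_inter] at h
    rw [wt k] at h
    have h2 : ∑ e, w e k = ∑ e ∈ On p, w e k + ∑ e ∈ Fr p, w e k + ∑ e ∈ Ze p, w e k := by
      have hun : (univ : Finset E) = (On p ∪ Fr p) ∪ Ze p := by
        ext e
        simp only [mem_univ, mem_union, mem_On, mem_Fr, mem_Ze, true_iff]
        rcases eq_or_lt_of_le (hp e).1 with h | h
        · exact Or.inr h.symm
        · rcases eq_or_lt_of_le (hp e).2 with h' | h'
          · exact Or.inl (Or.inl h')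
          · exact Or.inl (Or.inr ⟨h, h'⟩)
      rw [hun, sum_union, sum_union]
      · rw [disjoint_left]
        intro e h h'
        rw [mem_On] at h
        rw [mem_Fr] at h'
        linarith [h'.2]
      · rw [disjoint_left]
        intro e h h'
        rw [mem_union, mem_On, mem_Fr] at h
        rw [mem_Ze] at h'
        rcases h with h | h
        · linarith
        · linarith [h.1]
    rw [htot k] at h2
    have h3 : ∑ e ∈ Fr p, (1 - p e) * w e k = ∑ e ∈ Fr p, w e k - ∑ e ∈ Fr p, p e * w e k := by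
      rw [← sum_sub_distrib]
      apply sum_congr rfl
      intro e _; ring
    rw [h3]
    linarith
  -- f = 1
  rcases Nat.lt_or_ge 1 f with hf1 | hf1
  swap
  · have hfe : f = 1 := by omega
    refine ⟨On p, by omega, ?_, Or.inl ⟨Subset.refl _, ?_⟩⟩
    · intro k
      rw [hPv k]
      constructor
      · apply sum_nonneg
        intro e he
        exact mul_nonneg (mem_Fr.mp he).1.le (hw e k).1
      · calc ∑ e ∈ Fr p, p e * w e k ≤ ∑ e ∈ Fr p, p e * n k :=
              sum_le_sum (fun e he => mul_le_mul_of_nonneg_left (hw e k).2 (mem_Fr.mp he).1.le)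
          _ = n k := by rw [← sum_mul, hf', hfe]; push_cast; ring
    · have : ∑ e ∈ On p, p e = (On p).card := by
        rw [sum_congr rfl (fun e he => mem_On.mp he), sum_const, nsmul_eq_mul, mul_one]
      rw [this]
      have : (((On p).card + f : ℕ) : ℝ) = m := by rw [hf]
      rw [hfe] at this
      push_cast at this
      linarith
  rcases Nat.lt_or_ge (f + 1) (Fr p).card with hf2 | hf2
  swap
  · -- f = |F| - 1
    have hfe : (Fr p).card = f + 1 := by omega
    refine ⟨Ze p, by omega, ?_, Or.inr ⟨Subset.refl _, ?_⟩⟩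
    · intro k
      rw [hQv k]
      constructor
      · apply sum_nonneg
        intro e he
        exact mul_nonneg (by linarith [(mem_Fr.mp he).2]) (hw e k).1
      · calc ∑ e ∈ Fr p, (1 - p e) * w e k ≤ ∑ e ∈ Fr p, (1 - p e) * n k :=
              sum_le_sum (fun e he => mul_le_mul_of_nonneg_left (hw e k).2
                (by linarith [(mem_Fr.mp he).2]))
          _ = n k := by
              rw [← sum_mul, sum_sub_distrib, hf', sum_const, nsmul_eq_mul, mul_one, hfe]
              push_cast; ring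
    · have : ∑ e ∈ Ze p, p e = 0 := sum_eq_zero (fun e he => mem_Ze.mp he)
      rw [this]; norm_num
  -- |F| = 4, f = 2
  have hF4 : (Fr p).card = 4 := by omega
  have hf22 : f = 2 := by omega
  obtain ⟨a, ha, hamin⟩ := (Fr p).exists_min_image p hne
  obtain ⟨d, hd, hdmax⟩ := (Fr p).exists_max_image p hne
  rcases le_total (p a + p d) 1 with h | h
  · apply round_case1 m hE w n S hw htot p hp tot wt hF4 (by omega) a ha
    intro e he _
    linarith [hdmax e he]
  · apply round_case2 m hE w n S hw htot p hp tot wt hF4 (by omega) d hd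
    intro e he _
    linarith [hamin e he]

end

end Pool.Agent.Helper23.Trade
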