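import Pool.Agent.Helper23.Trade.Round

/-!
# The main combinatorial theorem: balanced families of `2m` vectors in a three-dimensional box
-/

open Finset

namespace Pool.Agent.Helper23.Trade

section
set_option linter.unusedSectionVars false
open Classical
variable {E : Type*} [Fintype E]

/-- The conclusion. -/
def Concl (m : ℕ) (X Y : Finset E) (w : E → Fin 3 → ℝ) (n : Fin 3 → ℝ) : Prop :=
  ∃ V : Finset E, (X ∩ V).Nonempty ∧ (Y ∩ V).Nonempty ∧
    ((V.card = m ∧ ∀ c, ∑ e ∈ V, w e c = ∑ e ∈ X, w e c) ∨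
      (V.card + 1 = m ∧ ∀ c, 0 ≤ ∑ e ∈ X, w e c - ∑ e ∈ V, w e c ∧
        ∑ e ∈ X, w e c - ∑ e ∈ V, w e c ≤ n c))

lemma bad_sub {m : ℕ} {X Y : Finset E} (hdisj : Disjoint X Y) (hun : X ∪ Y = univ)
    (hY : Y.card = m) {w : E → Fin 3 → ℝ} {n S : Fin 3 → ℝ} {p : E → ℝ}
    (hp : ∀ e, 0 ≤ p e ∧ p e ≤ 1) (tot : ∑ e, p e = m) {V : Finset E} (hV : Good m w n S p V)
    (hsub : X ∩ V = ∅) :
    (On p ⊆ V ∧ ∑ e ∈ X, p e < 2) ∨ (Ze p ⊆ V ∧ (m : ℝ) - 2 < ∑ e ∈ X, p e) := by
  have hVY : V ⊆ Y := by
    intro e he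
    have : e ∈ X ∪ Y := by rw [hun]; exact mem_univ _
    rcases mem_union.mp this with h | h
    · exfalso
      have : e ∈ X ∩ V := mem_inter.mpr ⟨h, he⟩
      rw [hsub] at this
      exact notMem_empty _ this
    · exact h
  have hXY : ∑ e ∈ X, p e + ∑ e ∈ Y, p e = m := by
    rw [← sum_union hdisj, hun, tot]
  have hc := hV.1
  rcases hV.2.2 with ⟨h1, h2⟩ | ⟨h1, h2⟩
  · left
    refine ⟨h1, ?_⟩
    have : ∑ e ∈ V, p e ≤ ∑ e ∈ Y, p e :=
      sum_le_sum_of_subset_of_nonneg hVY (fun e _ _ => (hp e).1)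
    linarith
  · right
    refine ⟨h1, ?_⟩
    have h3 : ∑ e ∈ Y, p e = ∑ e ∈ V, p e + ∑ e ∈ Y \ V, p e := by
      rw [add_comm, sum_sdiff hVY]
    have h4 : ∑ e ∈ Y \ V, p e ≤ 1 := by
      have hcard : (Y \ V).card = 1 := by
        rw [card_sdiff_of_subset hVY]; omega
      obtain ⟨z, hz⟩ := card_eq_one.mp hcard
      rw [hz, sum_singleton]
      exact (hp z).2
    linarith

lemma concl_int {m : ℕ} {X Y : Finset E} {w : E → Fin 3 → ℝ} {n : Fin 3 → ℝ} {p : E → ℝ}
    (hp : ∀ e, 0 ≤ p e ∧ p e ≤ 1) (tot : ∑ e, p e = m)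
    (wt : ∀ c, ∑ e, p e * w e c = ∑ e ∈ X, w e c) (hF : Fr p = ∅)
    (h1 : (X ∩ On p).Nonempty) (h2 : (Y ∩ On p).Nonempty) : Concl m X Y w n := by
  refine ⟨On p, h1, h2, Or.inl ⟨?_, ?_⟩⟩
  · have := sum_split_one p hp univ
    rw [tot] at this
    simp only [Finset.univ_inter] at this
    rw [hF, sum_empty, add_zero] at this
    exact_mod_cast this.symm
  · intro c
    have h := sum_split p hp univ (fun e => w e c)
    simp only [Finset.univ_inter] at h
    rw [wt c, hF, sum_empty, add_zero] at h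
    exact h.symm

theorem slice (m : ℕ) (hm : 4 ≤ m) (X Y : Finset E) (hdisj : Disjoint X Y) (hun : X ∪ Y = univ)
    (hX : X.card = m) (hY : Y.card = m) (w : E → Fin 3 → ℝ) (n : Fin 3 → ℝ)
    (hw : ∀ e c, 0 ≤ w e c ∧ w e c ≤ n c)
    (hbal : ∀ c, ∑ e ∈ X, w e c = ∑ e ∈ Y, w e c) (k : ℕ) :
    ∀ p : E → ℝ, (∀ e, 0 ≤ p e ∧ p e ≤ 1) → ∑ e, p e = m →
      (∀ c, ∑ e, p e * w e c = ∑ e ∈ X, w e c) → ∑ e ∈ X, p e = 2 → (Fr p).card = k →
      Concl m X Y w n := by
  have hE : Fintype.card E = 2 * m := by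
    rw [← Finset.card_univ, ← hun, card_union_of_disjoint hdisj, hX, hY]; ring
  have htot : ∀ c, ∑ e, w e c = 2 * ∑ e ∈ X, w e c := by
    intro c
    rw [← hun, sum_union hdisj, ← hbal c]; ring
  have hmr : (4 : ℝ) ≤ m := by exact_mod_cast hm
  induction k using Nat.strong_induction_on with
  | _ k ih =>
    intro p hp tot wt hs hk
    have hXYp : ∑ e ∈ X, p e + ∑ e ∈ Y, p e = m := by
      rw [← sum_union hdisj, hun, tot]
    -- few fractional coordinates
    rcases Nat.lt_or_ge 4 k with hk4 | hk4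
    swap
    · rcases round m hE w n (fun c => ∑ e ∈ X, w e c) hw htot p hp tot wt (by omega) with h | ⟨V, hV⟩
      · apply concl_int hp tot wt h
        · have := sum_split_one p hp X
          rw [hs, h, inter_empty, sum_empty, add_zero] at this
          rw [← card_pos]
          by_contra h0
          have h0' : (X ∩ On p).card = 0 := by omega
          rw [h0'] at this
          norm_num at this
        · have := sum_split_one p hp Y
          rw [h, inter_empty, sum_empty, add_zero] at this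
          rw [← card_pos]
          by_contra h0
          have h0' : (Y ∩ On p).card = 0 := by omega
          rw [h0'] at this
          push_cast at this
          linarith
      · refine ⟨V, ?_, ?_, Or.inr ⟨hV.1, hV.2.1⟩⟩
        · rw [nonempty_iff_ne_empty]
          intro h0
          rcases bad_sub hdisj hun hY hp tot hV h0 with h | h
          · linarith [h.2]
          · linarith [h.2]
        · rw [nonempty_iff_ne_empty]
          intro h0
          rcases bad_sub hdisj.symm (by rw [union_comm]; exact hun) hX hp tot hV h0 with h | h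
          · linarith [h.2]
          · linarith [h.2]
    -- a direction inside the slice reduces the number of fractional coordinates
    have hred : ∀ d : E → ℝ, (∃ e, d e ≠ 0) → (∀ e, d e ≠ 0 → e ∈ Fr p) → ∑ e, d e = 0 →
        (∀ c, ∑ e, d e * w e c = 0) → ∑ e ∈ X, d e = 0 → Concl m X Y w n := by
      intro d hd hsupp hd1 hd2 hd3
      obtain ⟨τ, hτ, hb, hcard, _, _⟩ := move p d hp hd hsupp
      apply ih _ (by rw [← hk]; exact hcard) (fun e => p e + τ * d e) hb _ _ _ rfl
      · rw [sum_add_distrib, ← mul_sum, hd1, mul_zero, add_zero, tot]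
      · intro c
        have : ∀ e ∈ (univ : Finset E), (p e + τ * d e) * w e c = p e * w e c + τ * (d e * w e c) :=
          fun e _ => by ring
        rw [sum_congr rfl this, sum_add_distrib, ← mul_sum, hd2, mul_zero, add_zero, wt]
      · rw [sum_add_distrib, ← mul_sum, hd3, mul_zero, add_zero, hs]
    rcases Nat.lt_or_ge 5 k with hk5 | hk5
    · -- at least six fractional coordinates
      obtain ⟨d, hd1, hd2, hd3⟩ := exists_kernel (Fr p) 5
        (fun e i => if h : i.val < 3 then w e ⟨i.val, h⟩ else if i.val = 3 then 1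
          else if e ∈ X then 1 else 0) (by omega)
      apply hred d hd2 hd1
      · have := hd3 3
        simpa using this
      · intro c
        have := hd3 ⟨c.val, by omega⟩
        simp only [c.2, dif_pos] at this
        exact this
      · have := hd3 4
        have h2 : ∑ e, d e * (if e ∈ X then (1 : ℝ) else 0) = 0 := by simpa using this
        rw [← h2]
        simp only [mul_ite, mul_one, mul_zero]
        rw [← sum_filter]
        congr 1
        ext e; simp
    -- exactly five fractional coordinates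
    have hk' : (Fr p).card = 5 := by omega
    obtain ⟨d, hd1, hd2, hd3⟩ := exists_kernel (Fr p) 4
      (fun e i => if h : i.val < 3 then w e ⟨i.val, h⟩ else 1) (by omega)
    have hdt : ∑ e, d e = 0 := by
      have := hd3 3
      simpa using this
    have hdw : ∀ c, ∑ e, d e * w e c = 0 := by
      intro c
      have := hd3 ⟨c.val, by omega⟩
      simp only [c.2, dif_pos] at this
      exact this
    by_cases hdX : ∑ e ∈ X, d e = 0
    · exact hred d hd2 hd1 hdt hdw hdX
    -- structure of the fractional part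
    have hdXY : ∑ e ∈ X, d e + ∑ e ∈ Y, d e = 0 := by rw [← sum_union hdisj, hun, hdt]
    have hsumX : ∑ e ∈ X, d e = ∑ e ∈ X ∩ Fr p, d e := by
      symm
      apply sum_subset inter_subset_left
      intro e he hne
      by_contra h
      exact hne (mem_inter.mpr ⟨he, hd1 e h⟩)
    have hsumY : ∑ e ∈ Y, d e = ∑ e ∈ Y ∩ Fr p, d e := by
      symm
      apply sum_subset inter_subset_left
      intro e he hne
      by_contra h
      exact hne (mem_inter.mpr ⟨he, hd1 e h⟩)
    have hFX0 : (X ∩ Fr p).card ≠ 0 := by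
      intro h
      rw [card_eq_zero] at h
      apply hdX
      rw [hsumX, h, sum_empty]
    have hFY0 : (Y ∩ Fr p).card ≠ 0 := by
      intro h
      rw [card_eq_zero] at h
      apply hdX
      rw [hsumY, h, sum_empty, add_zero] at hdXY
      exact hdXY
    have hFXY : (X ∩ Fr p).card + (Y ∩ Fr p).card = 5 := by
      rw [← hk', ← card_union_of_disjoint, ← union_inter_distrib_right, hun, univ_inter]
      exact hdisj.mono inter_subset_left inter_subset_left
    have sX := sum_split_one p hp X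
    have sY := sum_split_one p hp Y
    have cX := card_split p hp X
    have cY := card_split p hp Y
    rw [hs] at sX
    rw [hX] at cX
    rw [hY] at cY
    have posX : 0 < ∑ e ∈ X ∩ Fr p, p e :=
      sum_pos (fun e he => (mem_Fr.mp (mem_inter.mp he).2).1) (card_pos.mp (by omega))
    have posY : 0 < ∑ e ∈ Y ∩ Fr p, p e :=
      sum_pos (fun e he => (mem_Fr.mp (mem_inter.mp he).2).1) (card_pos.mp (by omega))
    have ltX : ∑ e ∈ X ∩ Fr p, p e < (X ∩ Fr p).card := by
      have : ∑ e ∈ X ∩ Fr p, p e < ∑ e ∈ X ∩ Fr p, (1 : ℝ) :=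
        sum_lt_sum_of_nonempty (card_pos.mp (by omega))
          (fun e he => (mem_Fr.mp (mem_inter.mp he).2).2)
      rwa [sum_const, nsmul_eq_mul, mul_one] at this
    have ltY : ∑ e ∈ Y ∩ Fr p, p e < (Y ∩ Fr p).card := by
      have : ∑ e ∈ Y ∩ Fr p, p e < ∑ e ∈ Y ∩ Fr p, (1 : ℝ) :=
        sum_lt_sum_of_nonempty (card_pos.mp (by omega))
          (fun e he => (mem_Fr.mp (mem_inter.mp he).2).2)
      rwa [sum_const, nsmul_eq_mul, mul_one] at this
    have hsY : ∑ e ∈ Y, p e = m - 2 := by linarith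
    rw [hsY] at sY
    -- natural number versions
    have nX1 : (X ∩ On p).card < 2 := by
      have : ((X ∩ On p).card : ℝ) < 2 := by linarith
      exact_mod_cast this
    have nX2 : 2 < (X ∩ On p).card + (X ∩ Fr p).card := by
      have : (2 : ℝ) < (X ∩ On p).card + (X ∩ Fr p).card := by linarith
      exact_mod_cast this
    have nY1 : (Y ∩ On p).card + 2 < m := by
      have : ((Y ∩ On p).card : ℝ) + 2 < m := by linarith
      exact_mod_cast this
    have nY2 : m < (Y ∩ On p).card + (Y ∩ Fr p).card + 2 := by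
      have : (m : ℝ) < (Y ∩ On p).card + (Y ∩ Fr p).card + 2 := by linarith
      exact_mod_cast this
    have hcase : ((X ∩ On p).Nonempty ∧ (Y ∩ Ze p).Nonempty) ∨
        ((Y ∩ On p).Nonempty ∧ (X ∩ Ze p).Nonempty) := by
      simp only [← card_pos]
      omega
    -- move along `± d`
    have hmove : ∀ d' : E → ℝ, (∃ e, d' e ≠ 0) → (∀ e, d' e ≠ 0 → e ∈ Fr p) → ∑ e, d' e = 0 →
        (∀ c, ∑ e, d' e * w e c = 0) → ∃ p' : E → ℝ, (∀ e, 0 ≤ p' e ∧ p' e ≤ 1) ∧ ∑ e, p' e = m ∧
          (∀ c, ∑ e, p' e * w e c = ∑ e ∈ X, w e c) ∧ (Fr p').card ≤ 4 ∧ On p ⊆ On p' ∧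
          Ze p ⊆ Ze p' ∧ ∃ τ : ℝ, 0 < τ ∧ ∑ e ∈ X, p' e = 2 + τ * ∑ e ∈ X, d' e := by
      intro d' hd hsupp hd1 hd2
      obtain ⟨τ, hτ, hb, hcard, h1, h0⟩ := move p d' hp hd hsupp
      refine ⟨fun e => p e + τ * d' e, hb, ?_, ?_, by omega, ?_, ?_, τ, hτ, ?_⟩
      · rw [sum_add_distrib, ← mul_sum, hd1, mul_zero, add_zero, tot]
      · intro c
        have : ∀ e ∈ (univ : Finset E), (p e + τ * d' e) * w e c = p e * w e c + τ * (d' e * w e c) :=
          fun e _ => by ring
        rw [sum_congr rfl this, sum_add_distrib, ← mul_sum, hd2, mul_zero, add_zero, wt]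
      · intro e he
        rw [mem_On] at he ⊢
        exact h1 e he
      · intro e he
        rw [mem_Ze] at he ⊢
        exact h0 e he
      · rw [sum_add_distrib, ← mul_sum, hs]
    have hdir : ∀ s : ℝ, s = 1 ∨ s = -1 → ∃ d' : E → ℝ, (∃ e, d' e ≠ 0) ∧
        (∀ e, d' e ≠ 0 → e ∈ Fr p) ∧ ∑ e, d' e = 0 ∧ (∀ c, ∑ e, d' e * w e c = 0) ∧
        0 < s * ∑ e ∈ X, d' e := by
      intro s hss
      have key : ∀ u : ℝ, u ≠ 0 → (0 < s * (u * ∑ e ∈ X, d e)) → ∃ d' : E → ℝ, (∃ e, d' e ≠ 0) ∧
        (∀ e, d' e ≠ 0 → e ∈ Fr p) ∧ ∑ e, d' e = 0 ∧ (∀ c, ∑ e, d' e * w e c = 0) ∧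
        0 < s * ∑ e ∈ X, d' e := by
        intro u hu hpos
        refine ⟨fun e => u * d e, ?_, ?_, ?_, ?_, ?_⟩
        · obtain ⟨e, he⟩ := hd2
          exact ⟨e, mul_ne_zero hu he⟩
        · intro e he
          exact hd1 e (right_ne_zero_of_mul he)
        · rw [← mul_sum, hdt, mul_zero]
        · intro c
          have : ∀ e ∈ (univ : Finset E), u * d e * w e c = u * (d e * w e c) := fun e _ => by ring
          rw [sum_congr rfl this, ← mul_sum, hdw, mul_zero]
        · rw [← mul_sum]; exact hpos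
      rcases lt_or_gt_of_ne hdX with h | h
      · rcases hss with rfl | rfl
        · exact key (-1) (by norm_num) (by linarith)
        · exact key 1 (by norm_num) (by linarith)
      · rcases hss with rfl | rfl
        · exact key 1 (by norm_num) (by linarith)
        · exact key (-1) (by norm_num) (by linarith)
    rcases hcase with ⟨hXO, hYZ⟩ | ⟨hYO, hXZ⟩
    · -- decrease
      obtain ⟨d', g1, g2, g3, g4, g5⟩ := hdir (-1) (Or.inr rfl)
      obtain ⟨p', hp', tot', wt', hF', hOn, hZe, τ, hτ, hs'⟩ := hmove d' g1 g2 g3 g4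
      have hlt : ∑ e ∈ X, p' e < 2 := by
        rw [hs']
        have : τ * ∑ e ∈ X, d' e < 0 := mul_neg_of_pos_of_neg hτ (by linarith)
        linarith
      have hXYp' : ∑ e ∈ X, p' e + ∑ e ∈ Y, p' e = m := by
        rw [← sum_union hdisj, hun, tot']
      obtain ⟨x0, hx0⟩ := hXO
      obtain ⟨y0, hy0⟩ := hYZ
      rw [mem_inter] at hx0 hy0
      rcases round m hE w n (fun c => ∑ e ∈ X, w e c) hw htot p' hp' tot' wt' hF' with h | ⟨V, hV⟩
      · apply concl_int hp' tot' wt' h ⟨x0, mem_inter.mpr ⟨hx0.1, hOn hx0.2⟩⟩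
        have := sum_split_one p' hp' Y
        rw [h, inter_empty, sum_empty, add_zero] at this
        rw [← card_pos]
        by_contra h0
        have h0' : (Y ∩ On p').card = 0 := by omega
        rw [h0'] at this
        push_cast at this
        linarith
      · refine ⟨V, ?_, ?_, Or.inr ⟨hV.1, hV.2.1⟩⟩
        · rw [nonempty_iff_ne_empty]
          intro h0
          rcases bad_sub hdisj hun hY hp' tot' hV h0 with h | h
          · have : x0 ∈ X ∩ V := mem_inter.mpr ⟨hx0.1, h.1 (hOn hx0.2)⟩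
            rw [h0] at this
            exact notMem_empty _ this
          · linarith [h.2]
        · rw [nonempty_iff_ne_empty]
          intro h0
          rcases bad_sub hdisj.symm (by rw [union_comm]; exact hun) hX hp' tot' hV h0 with h | h
          · linarith [h.2]
          · have : y0 ∈ Y ∩ V := mem_inter.mpr ⟨hy0.1, h.1 (hZe hy0.2)⟩
            rw [h0] at this
            exact notMem_empty _ this
    · -- increase
      obtain ⟨d', g1, g2, g3, g4, g5⟩ := hdir 1 (Or.inl rfl)
      obtain ⟨p', hp', tot', wt', hF', hOn, hZe, τ, hτ, hs'⟩ := hmove d' g1 g2 g3 g4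
      have hgt : 2 < ∑ e ∈ X, p' e := by
        rw [hs']
        have : 0 < τ * ∑ e ∈ X, d' e := mul_pos hτ (by linarith)
        linarith
      have hXYp' : ∑ e ∈ X, p' e + ∑ e ∈ Y, p' e = m := by
        rw [← sum_union hdisj, hun, tot']
      obtain ⟨y0, hy0⟩ := hYO
      obtain ⟨x0, hx0⟩ := hXZ
      rw [mem_inter] at hx0 hy0
      rcases round m hE w n (fun c => ∑ e ∈ X, w e c) hw htot p' hp' tot' wt' hF' with h | ⟨V, hV⟩
      · apply concl_int hp' tot' wt' h _ ⟨y0, mem_inter.mpr ⟨hy0.1, hOn hy0.2⟩⟩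
        have := sum_split_one p' hp' X
        rw [h, inter_empty, sum_empty, add_zero] at this
        rw [← card_pos]
        by_contra h0
        have h0' : (X ∩ On p').card = 0 := by omega
        rw [h0'] at this
        push_cast at this
        linarith
      · refine ⟨V, ?_, ?_, Or.inr ⟨hV.1, hV.2.1⟩⟩
        · rw [nonempty_iff_ne_empty]
          intro h0
          rcases bad_sub hdisj hun hY hp' tot' hV h0 with h | h
          · linarith [h.2]
          · have : x0 ∈ X ∩ V := mem_inter.mpr ⟨hx0.1, h.1 (hZe hx0.2)⟩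
            rw [h0] at this
            exact notMem_empty _ this
        · rw [nonempty_iff_ne_empty]
          intro h0
          rcases bad_sub hdisj.symm (by rw [union_comm]; exact hun) hX hp' tot' hV h0 with h | h
          · have : y0 ∈ Y ∩ V := mem_inter.mpr ⟨hy0.1, h.1 (hOn hy0.2)⟩
            rw [h0] at this
            exact notMem_empty _ this
          · linarith [h.2]

/-- The main combinatorial theorem. -/
theorem exists_V (m : ℕ) (hm : 4 ≤ m) (X Y : Finset E) (hdisj : Disjoint X Y) (hun : X ∪ Y = univ)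
    (hX : X.card = m) (hY : Y.card = m) (w : E → Fin 3 → ℝ) (n : Fin 3 → ℝ)
    (hw : ∀ e c, 0 ≤ w e c ∧ w e c ≤ n c)
    (hbal : ∀ c, ∑ e ∈ X, w e c = ∑ e ∈ Y, w e c) : Concl m X Y w n := by
  have hmr : (4 : ℝ) ≤ m := by exact_mod_cast hm
  have hm0 : (0 : ℝ) < m := by linarith
  have hYX : ∀ e ∈ Y, e ∉ X := fun e he hx => disjoint_left.mp hdisj hx he
  set p : E → ℝ := fun e => if e ∈ X then 2 / m else (m - 2) / m with hpdef
  have hpX : ∀ e ∈ X, p e = 2 / m := fun e he => by simp only [hpdef]; rw [if_pos he]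
  have hpY : ∀ e ∈ Y, p e = (m - 2) / m := fun e he => by
    simp only [hpdef]; rw [if_neg (hYX e he)]
  have hsX : ∑ e ∈ X, p e = 2 := by
    rw [sum_congr rfl hpX, sum_const, hX, nsmul_eq_mul]
    field_simp
  have hsY : ∑ e ∈ Y, p e = m - 2 := by
    rw [sum_congr rfl hpY, sum_const, hY, nsmul_eq_mul]
    field_simp
  apply slice m hm X Y hdisj hun hX hY w n hw hbal _ p _ _ _ hsX rfl
  · intro e
    simp only [hpdef]
    split_ifs
    · constructor
      · positivity
      · rw [div_le_one hm0]; linarith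
    · constructor
      · apply div_nonneg <;> linarith
      · rw [div_le_one hm0]; linarith
  · rw [← hun, sum_union hdisj, hsX, hsY]; ring
  · intro c
    rw [← hun, sum_union hdisj]
    have h1 : ∑ e ∈ X, p e * w e c = 2 / m * ∑ e ∈ X, w e c := by
      rw [mul_sum]
      exact sum_congr rfl (fun e he => by rw [hpX e he])
    have h2 : ∑ e ∈ Y, p e * w e c = (m - 2) / m * ∑ e ∈ X, w e c := by
      rw [hbal c, mul_sum]
      exact sum_congr rfl (fun e he => by rw [hpY e he])
    rw [h1, h2]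
    field_simp
    ring

end

end Pool.Agent.Helper23.Trade
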